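import Pool.Agent.H25.NP.Hb

/-!
# The explicit bound for `q`
-/

set_option autoImplicit false

namespace Pool.Agent.H25.NP

open Pool.Agent.H26.NL

lemma geom_le {q : ℕ} (hq : 2 ≤ q) (n : ℕ) : ∑ i ∈ Finset.range (n + 1), q ^ i ≤ 2 * q ^ n := by
  induction n with
  | zero => simp
  | succ n ih =>
    rw [Finset.sum_range_succ, pow_succ]
    nlinarith [pow_pos (show 0 < q by omega) n]

lemma four_three {n : ℕ} (hn : 5 ≤ n) : 4 * 3 ^ n ≤ 4 ^ n := by
  induction n, hn using Nat.le_induction with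
  | base => norm_num
  | succ n hn ih =>
    rw [pow_succ, pow_succ]
    have : 0 < 3 ^ n := by positivity
    omega

/-- From the inequality to the bound. -/
lemma final_bound {q d p k D M : ℕ} (hq : 2 ≤ q) (hk : 3 ≤ k) (hD : 1 ≤ D) (hd : 2 ≤ d)
    (hM : M ≤ d - 1) (hM2 : 2 * M ≤ k * D) (hpk : p ^ k ≤ 2 * q ^ (d - 1))
    (h : q ^ (D * (d - 1)) ≤ (3 * k) ^ (2 * D ^ 2 * (d - 1)) * p ^ M) : q ≤ (4 * k) ^ (4 * D) := by
  have hq0 : 0 < q := by omega
  have h1 : (q ^ (k * D)) ^ (d - 1)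
      ≤ ((3 * k) ^ (2 * k * D ^ 2) * 2 * q ^ M) ^ (d - 1) := by
    calc (q ^ (k * D)) ^ (d - 1) = (q ^ (D * (d - 1))) ^ k := by
          rw [← pow_mul, ← pow_mul]; congr 1; ring
      _ ≤ ((3 * k) ^ (2 * D ^ 2 * (d - 1)) * p ^ M) ^ k := Nat.pow_le_pow_left h k
      _ = (3 * k) ^ (2 * k * D ^ 2 * (d - 1)) * (p ^ k) ^ M := by
          rw [mul_pow, ← pow_mul, ← pow_mul, ← pow_mul, mul_comm M k]; congr 2; ring
      _ ≤ (3 * k) ^ (2 * k * D ^ 2 * (d - 1)) * (2 * q ^ (d - 1)) ^ M :=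
          Nat.mul_le_mul_left _ (Nat.pow_le_pow_left hpk M)
      _ = (3 * k) ^ (2 * k * D ^ 2 * (d - 1)) * (2 ^ M * (q ^ M) ^ (d - 1)) := by
          rw [mul_pow 2 (q ^ (d - 1)) M, ← pow_mul q, ← pow_mul q, mul_comm M (d - 1)]
      _ ≤ (3 * k) ^ (2 * k * D ^ 2 * (d - 1)) * (2 ^ (d - 1) * (q ^ M) ^ (d - 1)) := by
          refine Nat.mul_le_mul_left _ (Nat.mul_le_mul_right _ ?_)
          exact Nat.pow_le_pow_right (by norm_num) hM
      _ = _ := by rw [mul_pow, mul_pow, ← pow_mul]; ring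
  have h2 : q ^ (k * D) ≤ (3 * k) ^ (2 * k * D ^ 2) * 2 * q ^ M :=
    (Nat.pow_le_pow_iff_left (by omega)).mp h1
  have h3 : q ^ (k * D) = q ^ (k * D - M) * q ^ M := by
    rw [← pow_add]; congr 1; omega
  rw [h3] at h2
  have h4 : q ^ (k * D - M) ≤ (3 * k) ^ (2 * k * D ^ 2) * 2 :=
    Nat.le_of_mul_le_mul_right h2 (pow_pos hq0 M)
  have h5 : q ^ (k * D) ≤ ((4 * k) ^ (4 * D)) ^ (k * D) := by
    calc q ^ (k * D) ≤ q ^ (2 * (k * D - M)) := Nat.pow_le_pow_right hq0 (by omega)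
      _ = (q ^ (k * D - M)) ^ 2 := by rw [← pow_mul]; congr 1; ring
      _ ≤ ((3 * k) ^ (2 * k * D ^ 2) * 2) ^ 2 := Nat.pow_le_pow_left h4 2
      _ = 4 * 3 ^ (4 * k * D ^ 2) * k ^ (4 * k * D ^ 2) := by
          rw [mul_pow, ← pow_mul, mul_pow 3 k]
          have e1 : 2 * k * D ^ 2 * 2 = 4 * k * D ^ 2 := by ring
          rw [e1]; ring
      _ ≤ 4 ^ (4 * k * D ^ 2) * k ^ (4 * k * D ^ 2) := by
          refine Nat.mul_le_mul_right _ (four_three ?_)
          have h6 : 1 ≤ D ^ 2 := Nat.one_le_pow _ _ (by omega)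
          nlinarith
      _ = ((4 * k) ^ (4 * D)) ^ (k * D) := by
          rw [← mul_pow, ← pow_mul]; congr 1; ring
  have hkD : k * D ≠ 0 := Nat.mul_ne_zero (by omega) (by omega)
  exact (Nat.pow_le_pow_iff_left hkD).mp h5

lemma N_le {d : ℕ} (hd : d.Prime) (h7 : 7 ≤ d) : 12 * (d / 3 - d / 4) ≤ d + 5 := by
  have h2 : d % 2 = 1 := by
    rcases hd.eq_two_or_odd with h | h
    · omega
    · exact h
  have h3 : d % 3 ≠ 0 := by
    intro h
    have := (Nat.prime_dvd_prime_iff_eq Nat.prime_three hd).mp (Nat.dvd_of_mod_eq_zero h)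
    omega
  omega

/-- The explicit bound for `q`. -/
theorem heightBound {d p k r e D : ℕ} (hd4 : 4 ≤ d) (hp : p.Prime) (hr : r.Prime)
    (he : 1 ≤ e) (hk : 1 < k) (hodd : Odd k) (hkr : k ∣ r - 1)
    (h : ((r ^ e) ^ d - 1) / (r ^ e - 1) = p ^ k) :
    (d + 5 ≤ 3 * k * D → r ^ e ≤ (4 * k) ^ (4 * D)) ∧
    ((r = d ∨ ∃ j : ℕ, d ∣ r ^ j + 1) → d + 5 ≤ 6 * k * D → r ^ e ≤ (4 * k) ^ (4 * D)) := by
  have S := sol_of_eq (by omega) hp hr he hk h
  have hd : d.Prime := d_prime S.hq (by omega) hp S.eq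
  rcases Nat.lt_or_ge d 7 with h1 | h1
  · exfalso
    interval_cases d
    · exact absurd hd (by norm_num)
    · exact no_five hp hr he hk hodd hkr h
    · exact absurd hd (by norm_num)
  have hk3 : 3 ≤ k := by
    rcases hodd with ⟨m, hm⟩; omega
  have hN := N_le hd h1
  have hpk : p ^ k ≤ 2 * (r ^ e) ^ (d - 1) := by
    have h2 := geom_le S.hq (d - 1)
    have h3 : d - 1 + 1 = d := by omega
    rwa [h3, S.eq] at h2
  have hbase : ∀ c : ℕ, d + 5 ≤ c * k * D → 1 ≤ D := by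
    intro c hc
    rcases Nat.eq_zero_or_pos D with h0 | h0
    · rw [h0, mul_zero] at hc; omega
    · exact h0
  constructor
  · intro hD
    have hD1 : 1 ≤ D := hbase 3 hD
    obtain ⟨m, rfl⟩ : ∃ m, D = m + 1 := ⟨D - 1, by omega⟩
    have hmul : 3 * k * (m + 1) = 3 * (k * (m + 1)) := by ring
    have h2 := heightB7 (m := m) hd h1 hp hr he hk hodd hkr h (by omega)
    exact final_bound S.hq hk3 hD1 (by omega) (by omega) (by omega) hpk h2
  · intro hrd hD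
    have hD1 : 1 ≤ D := hbase 6 hD
    obtain ⟨m, rfl⟩ : ∃ m, D = m + 1 := ⟨D - 1, by omega⟩
    have hmul : 6 * k * (m + 1) = 6 * (k * (m + 1)) := by ring
    have h2 := heightA7 (m := m) hd h1 hp hr he hk hodd hkr hrd h (by omega)
    exact final_bound S.hq hk3 hD1 (by omega) (by omega) (by omega) hpk h2

end Pool.Agent.H25.NP
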