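import Mathlib

/-!
# Toeplitz determinants of divided power type are nonzero

The determinant of `choose (D + a) b`, `a, b < m`, is `1`. If `j! * phi j = k^j * g j` and
`g j = c^j mod k` with `k` dividing no power of `c`, then `det (phi (D + a - b))` is nonzero.
-/

set_option autoImplicit false

namespace Pool.Agent.H25.NP

open Matrix

lemma det_choose (D m : ℕ) {R : Type*} [CommRing R] :
    (Matrix.of fun a b : Fin m => (((D + (a : ℕ)).choose (b : ℕ) : ℕ) : R)).det = 1 := by
  have h1 : (Matrix.of fun a b : Fin m => (((D + (a : ℕ)).choose (b : ℕ) : ℕ) : R))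
      = (Matrix.of fun a j : Fin m => (((a : ℕ).choose (j : ℕ) : ℕ) : R))
        * (Matrix.of fun j b : Fin m => if (j : ℕ) ≤ b then ((D.choose ((b : ℕ) - j) : ℕ) : R)
            else 0) := by
    ext a b
    rw [Matrix.mul_apply]
    simp only [Matrix.of_apply]
    rw [add_comm D, Nat.add_choose_eq, Nat.cast_sum, Finset.Nat.sum_antidiagonal_eq_sum_range_succ
      (fun i j => (((a : ℕ).choose i * D.choose j : ℕ) : R)) (b : ℕ)]
    have h2 : ∑ x : Fin m, (((a : ℕ).choose (x : ℕ) : ℕ) : R)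
        * (if (x : ℕ) ≤ b then ((D.choose ((b : ℕ) - x) : ℕ) : R) else 0)
        = ∑ x ∈ Finset.range m, (((a : ℕ).choose x : ℕ) : R)
          * (if x ≤ (b : ℕ) then ((D.choose ((b : ℕ) - x) : ℕ) : R) else 0) :=
      Fin.sum_univ_eq_sum_range (fun x => (((a : ℕ).choose x : ℕ) : R)
          * (if x ≤ (b : ℕ) then ((D.choose ((b : ℕ) - x) : ℕ) : R) else 0)) m
    rw [h2]
    have h3 : Finset.range (b : ℕ).succ ⊆ Finset.range m := by
      intro x hx
      rw [Finset.mem_range] at hx ⊢
      have := b.2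
      omega
    rw [← Finset.sum_subset h3]
    · refine Finset.sum_congr rfl fun x hx => ?_
      rw [Finset.mem_range] at hx
      rw [if_pos (by omega)]
      push_cast
      rfl
    · intro x _ hx
      rw [Finset.mem_range] at hx
      rw [if_neg (by omega), mul_zero]
  rw [h1, Matrix.det_mul, Matrix.det_of_lowerTriangular, Matrix.det_of_upperTriangular]
  · simp
  · intro i j hij
    simp only [Matrix.of_apply]
    rw [if_neg]
    have : (j : ℕ) < i := hij
    omega
  · intro i j hij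
    simp only [Matrix.of_apply]
    have h2 : (i : ℕ) < j := hij
    rw [Nat.choose_eq_zero_of_lt h2, Nat.cast_zero]

/-- Scaling rows and columns. -/
lemma det_scale {R : Type*} [CommRing R] {m : ℕ} (x y : Fin m → R) (A : Matrix (Fin m) (Fin m) R) :
    (Matrix.of fun a b => x a * A a b * y b).det = (∏ a, x a) * A.det * ∏ b, y b := by
  have h1 : (Matrix.of fun a b => x a * A a b * y b)
      = Matrix.diagonal x * A * Matrix.diagonal y := by
    ext a b
    rw [Matrix.mul_diagonal, Matrix.diagonal_mul, Matrix.of_apply]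
  rw [h1, Matrix.det_mul, Matrix.det_mul, Matrix.det_diagonal, Matrix.det_diagonal]

/-- Congruent matrices have congruent determinants. -/
lemma det_congr_mod {R : Type*} [CommRing R] {m : ℕ} (A B : Matrix (Fin m) (Fin m) R) (k : R)
    (h : ∀ a b, k ∣ A a b - B a b) : k ∣ A.det - B.det := by
  rw [← Ideal.mem_span_singleton, ← Ideal.Quotient.eq]
  have h1 := RingHom.map_det (Ideal.Quotient.mk (Ideal.span {k})) A
  have h2 := RingHom.map_det (Ideal.Quotient.mk (Ideal.span {k})) B
  rw [h1, h2]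
  congr 1
  ext a b
  rw [RingHom.mapMatrix_apply, RingHom.mapMatrix_apply, Matrix.map_apply, Matrix.map_apply,
    Ideal.Quotient.eq, Ideal.mem_span_singleton]
  exact h a b

/-- The Toeplitz matrix. -/
def Toe {R : Type*} (φ : ℕ → R) (D m : ℕ) : Matrix (Fin m) (Fin m) R :=
  Matrix.of fun a b => φ (D + (a : ℕ) - (b : ℕ))

/-- Nonvanishing of the Toeplitz determinants. -/
theorem toe_ne {R : Type*} [CommRing R] [IsDomain R] [CharZero R] {k : ℕ} (hk : k ≠ 0)
    {φ g : ℕ → R} {c : R} {n : ℕ} (h1 : ∀ j ≤ n, (j.factorial : R) * φ j = (k : R) ^ j * g j)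
    (h2 : ∀ j, (k : R) ∣ g j - c ^ j) (h3 : ∀ M, ¬ (k : R) ∣ c ^ M) {D m : ℕ} (hm : m ≤ D)
    (hn : D + m ≤ n + 1) : (Toe φ D m).det ≠ 0 := by
  intro h0
  -- the integral matrix
  set N : Matrix (Fin m) (Fin m) R :=
    Matrix.of fun a b => (((D + (a : ℕ)).choose (b : ℕ) : ℕ) : R) * g (D + a - b) with hN
  have hk0 : (k : R) ≠ 0 := Nat.cast_ne_zero.mpr hk
  have e1 : (Matrix.of fun a b : Fin m => (((D + (a : ℕ)).factorial : ℕ) : R)
        * (Toe φ D m) a b * (k : R) ^ (b : ℕ))
      = (Matrix.of fun a b : Fin m => (k : R) ^ (D + (a : ℕ)) * N a b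
        * (((b : ℕ).factorial : ℕ) : R)) := by
    ext a b
    have ha := a.2
    have hb := b.2
    simp only [Matrix.of_apply, hN, Toe]
    have h4 := h1 (D + a - b) (by omega)
    have h5 : ((D + (a : ℕ)).factorial : R)
        = (((D + (a : ℕ)).choose (b : ℕ) : ℕ) : R) * ((b : ℕ).factorial : R)
          * ((D + (a : ℕ) - b).factorial : R) := by
      have := Nat.choose_mul_factorial_mul_factorial (n := D + (a : ℕ)) (k := (b : ℕ)) (by omega)
      exact_mod_cast this.symm
    have h6 : (k : R) ^ (D + (a : ℕ)) = (k : R) ^ (D + (a : ℕ) - b) * (k : R) ^ (b : ℕ) := by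
      rw [← pow_add]; congr 1; omega
    rw [h5, h6]
    linear_combination (((D + (a : ℕ)).choose (b : ℕ) : ℕ) : R) * ((b : ℕ).factorial : R)
      * (k : R) ^ (b : ℕ) * h4
  have e2 := det_scale (fun a : Fin m => (((D + (a : ℕ)).factorial : ℕ) : R))
    (fun b : Fin m => (k : R) ^ (b : ℕ)) (Toe φ D m)
  have e3 := det_scale (fun a : Fin m => (k : R) ^ (D + (a : ℕ)))
    (fun b : Fin m => (((b : ℕ).factorial : ℕ) : R)) N
  rw [e1, e3, h0, mul_zero, zero_mul] at e2
  have hdet : N.det = 0 := by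
    have h4 : (∏ a : Fin m, (k : R) ^ (D + (a : ℕ))) ≠ 0 :=
      Finset.prod_ne_zero_iff.mpr fun a _ => pow_ne_zero _ hk0
    have h5 : (∏ b : Fin m, (((b : ℕ).factorial : ℕ) : R)) ≠ 0 :=
      Finset.prod_ne_zero_iff.mpr fun b _ => Nat.cast_ne_zero.mpr (Nat.factorial_ne_zero _)
    rcases mul_eq_zero.mp e2 with h6 | h6
    · rcases mul_eq_zero.mp h6 with h7 | h7
      · exact absurd h7 h4
      · exact h7
    · exact absurd h6 h5
  -- modulo `k`
  set N' : Matrix (Fin m) (Fin m) R :=
    Matrix.of fun a b => (((D + (a : ℕ)).choose (b : ℕ) : ℕ) : R) * c ^ (D + (a : ℕ) - b) with hN'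
  have h4 : (k : R) ∣ N.det - N'.det := by
    apply det_congr_mod
    intro a b
    simp only [hN, hN', Matrix.of_apply]
    rw [← mul_sub]
    exact dvd_mul_of_dvd_right (h2 _) _
  have h5 := det_scale (fun a : Fin m => (1 : R)) (fun b : Fin m => c ^ (b : ℕ)) N'
  have h6 := det_scale (fun a : Fin m => c ^ (D + (a : ℕ))) (fun b : Fin m => (1 : R))
    (Matrix.of fun a b : Fin m => (((D + (a : ℕ)).choose (b : ℕ) : ℕ) : R))
  have h7 : (Matrix.of fun a b : Fin m => (1 : R) * N' a b * c ^ (b : ℕ))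
      = (Matrix.of fun a b : Fin m => c ^ (D + (a : ℕ))
        * (Matrix.of fun a b : Fin m => (((D + (a : ℕ)).choose (b : ℕ) : ℕ) : R)) a b * 1) := by
    ext a b
    have ha := a.2
    have hb := b.2
    simp only [Matrix.of_apply, hN']
    have h8 : c ^ (D + (a : ℕ)) = c ^ (D + (a : ℕ) - b) * c ^ (b : ℕ) := by
      rw [← pow_add]; congr 1; omega
    rw [h8]
    ring
  rw [h7, h6, det_choose] at h5
  simp only [Finset.prod_const_one, mul_one, one_mul] at h5
  rw [hdet, zero_sub, dvd_neg] at h4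
  have h8 : (k : R) ∣ ∏ a : Fin m, c ^ (D + (a : ℕ)) := by
    rw [h5]; exact dvd_mul_of_dvd_left h4 _
  rw [Finset.prod_pow_eq_pow_sum] at h8
  exact h3 _ h8

end Pool.Agent.H25.NP
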