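import Pool.Agent.H25.NP.Root

/-!
# The coefficients of the truncated root

`phi j` are the coefficients of the root, `j! * phi j = k^j * g j` with `g j = c^j mod k`.
-/

set_option autoImplicit false

namespace Pool.Agent.H25.NP

open Polynomial

variable {R : Type*} [CommRing R]

/-- The divided power coefficients. -/
noncomputable def gs (k : ℕ) (ρ : ℕ → R) : ℕ → R
  | 0 => 1
  | n + 1 => ∑ i : Fin (n + 1), ρ ((i : ℕ) + 1) * (k : R) ^ (i : ℕ)
      * ((n.descFactorial (i : ℕ) : ℕ) : R) * gs k ρ (n - (i : ℕ))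
termination_by n => n
decreasing_by omega

lemma gs_zero (k : ℕ) (ρ : ℕ → R) : gs k ρ 0 = 1 := by rw [gs]

lemma gs_succ (k : ℕ) (ρ : ℕ → R) (n : ℕ) : gs k ρ (n + 1)
    = ∑ i ∈ Finset.range (n + 1), ρ (i + 1) * (k : R) ^ i
      * ((n.descFactorial i : ℕ) : R) * gs k ρ (n - i) := by
  rw [gs, ← Fin.sum_univ_eq_sum_range (fun i => ρ (i + 1) * (k : R) ^ i
      * ((n.descFactorial i : ℕ) : R) * gs k ρ (n - i))]

lemma gs_congr (k : ℕ) (ρ : ℕ → R) (n : ℕ) : (k : R) ∣ gs k ρ n - ρ 1 ^ n := by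
  induction n with
  | zero => rw [gs_zero, pow_zero, sub_self]; exact dvd_zero _
  | succ n ih =>
    rw [gs_succ, Finset.sum_range_succ']
    have h1 : (k : R) ∣ ∑ i ∈ Finset.range n, ρ (i + 1 + 1) * (k : R) ^ (i + 1)
        * ((n.descFactorial (i + 1) : ℕ) : R) * gs k ρ (n - (i + 1)) := by
      refine Finset.dvd_sum fun i _ => ?_
      refine dvd_mul_of_dvd_left (dvd_mul_of_dvd_left (dvd_mul_of_dvd_right ?_ _) _) _
      exact dvd_pow_self _ (by omega)
    have h2 : ρ (0 + 1) * (k : R) ^ 0 * ((n.descFactorial 0 : ℕ) : R) * gs k ρ (n - 0)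
        - ρ 1 ^ (n + 1) = ρ 1 * (gs k ρ n - ρ 1 ^ n) := by
      rw [Nat.descFactorial_zero, Nat.sub_zero]
      push_cast
      ring
    have h3 := dvd_add h1 (h2 ▸ dvd_mul_of_dvd_right ih (ρ 1))
    rw [← add_sub_assoc] at h3
    exact h3

/-- The power sums `sum_{s2} a^j - sum_{s1} a^j`. -/
def pw {ι : Type*} (a : ι → R) (s1 s2 : Finset ι) (j : ℕ) : R :=
  ∑ i ∈ s2, a i ^ j - ∑ i ∈ s1, a i ^ j

/-- The differential equation. -/
lemma ode {ι : Type*} {k n : ℕ} (hk : 1 ≤ k) {a : ι → R} {s1 s2 : Finset ι} {G : PowerSeries R}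
    (h0 : PowerSeries.constantCoeff G = 1)
    (hG : PowerSeries.X ^ (n + 1) ∣ G ^ k * PR k a s2 - PR k a s1) :
    PowerSeries.X ^ n ∣ (k : PowerSeries R) * PowerSeries.derivative R G
      - G * (PS k a s1 - PS k a s2) := by
  obtain ⟨Y, hY⟩ := hG
  have h1 := congrArg (PowerSeries.derivative R) hY
  rw [map_sub, Derivation.leibniz, Derivation.leibniz, Derivation.leibniz_pow,
    Derivation.leibniz_pow, deriv_PR, deriv_PR] at h1
  simp only [smul_eq_mul, nsmul_eq_mul, Nat.add_sub_cancel, PowerSeries.derivative_X, mul_one] at h1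
  have h2 : G ^ k = G ^ (k - 1) * G := by rw [← pow_succ]; congr 1; omega
  have h3 : (G ^ (k - 1) * PR k a s2) * ((k : PowerSeries R) * PowerSeries.derivative R G
      - G * (PS k a s1 - PS k a s2))
      = PowerSeries.X ^ n * (PowerSeries.X * PowerSeries.derivative R Y
        + Y * ((n + 1 : ℕ) : PowerSeries R) - PowerSeries.X * Y * PS k a s1) := by
    have h4 : PR k a s1 = G ^ k * PR k a s2 - PowerSeries.X ^ (n + 1) * Y := by
      linear_combination -hY
    rw [h4, h2] at h1
    rw [pow_succ] at h1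
    linear_combination h1
  have hu : IsUnit (G ^ (k - 1) * PR k a s2) := by
    rw [PowerSeries.isUnit_iff_constantCoeff, map_mul, map_pow, h0, constCoeff_PR, one_pow, one_mul]
    exact isUnit_one
  exact (hu.dvd_mul_left).mp ⟨_, h3⟩

lemma coeff_PS {ι : Type*} (k : ℕ) (a : ι → R) (s1 s2 : Finset ι) (i : ℕ) :
    PowerSeries.coeff i (PS k a s1 - PS k a s2) = (k : R) ^ (2 * (i + 1)) * pw a s1 s2 (i + 1) := by
  rw [map_sub, PS, PS, PowerSeries.coeff_mk, PowerSeries.coeff_mk, pw]
  simp only [mul_pow, ← Finset.mul_sum, ← pow_mul]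
  ring

/-- The recursion for the coefficients. -/
lemma recur {ι : Type*} {k n : ℕ} (hk : 1 ≤ k) {a : ι → R} {s1 s2 : Finset ι} {G : PowerSeries R}
    (h0 : PowerSeries.constantCoeff G = 1)
    (hG : PowerSeries.X ^ (n + 1) ∣ G ^ k * PR k a s2 - PR k a s1) {j : ℕ} (hj : j < n) :
    (k : R) * ((j + 1 : ℕ) : R) * PowerSeries.coeff (j + 1) G
      = ∑ i ∈ Finset.range (j + 1), (k : R) ^ (2 * (i + 1)) * pw a s1 s2 (i + 1)
        * PowerSeries.coeff (j - i) G := by
  have h1 := ode hk h0 hG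
  rw [PowerSeries.X_pow_dvd_iff] at h1
  have h2 := h1 j hj
  have h3 : ((k : ℕ) : PowerSeries R) = PowerSeries.C (k : R) := by rw [map_natCast]
  rw [map_sub, sub_eq_zero, mul_comm G, h3, PowerSeries.coeff_C_mul,
    PowerSeries.coeff_derivative, PowerSeries.coeff_mul,
    Finset.Nat.sum_antidiagonal_eq_sum_range_succ
      (fun i l => PowerSeries.coeff i (PS k a s1 - PS k a s2) * PowerSeries.coeff l G) j] at h2
  simp only [coeff_PS] at h2
  rw [← h2]
  push_cast
  ring

/-- The divided power relation. -/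
lemma fact_phi {ι : Type*} [IsDomain R] [CharZero R] {k n : ℕ} (hk : 1 ≤ k) {a : ι → R}
    {s1 s2 : Finset ι} {G : PowerSeries R}
    (h0 : PowerSeries.constantCoeff G = 1)
    (hG : PowerSeries.X ^ (n + 1) ∣ G ^ k * PR k a s2 - PR k a s1) :
    ∀ j ≤ n, (j.factorial : R) * PowerSeries.coeff j G
      = (k : R) ^ j * gs k (pw a s1 s2) j := by
  intro j
  induction j using Nat.strong_induction_on with
  | _ j ih =>
    intro hj
    rcases Nat.eq_zero_or_pos j with rfl | hj0
    · rw [gs_zero, Nat.factorial_zero, PowerSeries.coeff_zero_eq_constantCoeff_apply, h0]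
      simp
    · obtain ⟨j, rfl⟩ : ∃ i, j = i + 1 := ⟨j - 1, by omega⟩
      have hk0 : (k : R) ≠ 0 := Nat.cast_ne_zero.mpr (by omega)
      apply mul_left_cancel₀ hk0
      have h1 := recur hk h0 hG (by omega : j < n)
      have h2 : (k : R) * (((j + 1).factorial : R) * PowerSeries.coeff (j + 1) G)
          = (j.factorial : R) * ((k : R) * ((j + 1 : ℕ) : R) * PowerSeries.coeff (j + 1) G) := by
        rw [Nat.factorial_succ]; push_cast; ring
      rw [h2, h1, gs_succ, Finset.mul_sum, Finset.mul_sum, Finset.mul_sum]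
      refine Finset.sum_congr rfl fun i hi => ?_
      rw [Finset.mem_range] at hi
      have h3 := ih (j - i) (by omega) (by omega)
      have h4 : (j.factorial : R) = ((j - i).factorial : R) * ((j.descFactorial i : ℕ) : R) := by
        have := Nat.factorial_mul_descFactorial (n := j) (k := i) (by omega)
        exact_mod_cast this.symm
      have h5 : (k : R) * (k : R) ^ (j + 1) = (k : R) ^ (j - i) * (k : R) ^ (i + 2) := by
        rw [← pow_succ', ← pow_add]; congr 1; omega
      rw [h4]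
      have h6 : (k : R) ^ (2 * (i + 1)) = (k : R) ^ i * (k : R) ^ (i + 2) := by
        rw [← pow_add]; congr 1; omega
      rw [h6]
      linear_combination ((j.descFactorial i : ℕ) : R) * (k : R) ^ i * (k : R) ^ (i + 2)
        * pw a s1 s2 (i + 1) * h3
        - pw a s1 s2 (i + 1) * (k : R) ^ i * ((j.descFactorial i : ℕ) : R)
          * gs k (pw a s1 s2) (j - i) * h5

end Pool.Agent.H25.NP
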