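import Pool.Agent.H26.NL.Pair
import Pool.Agent.H25.NP.Ser

/-!
# The congruence `k^(2n) X = (sum phi_j k^(2(n-j)) q^j) Y` modulo `q^(n+1)`
-/

set_option autoImplicit false

namespace Pool.Agent.H25.NP

open Polynomial

variable {R : Type*} [CommRing R]

/-- The polynomial version of `PR`. -/
noncomputable def PP' {ι : Type*} (k : ℕ) (a : ι → R) (s : Finset ι) : R[X] :=
  ∏ i ∈ s, (1 - C ((k : R) ^ 2 * a i) * X)

lemma coe_PP' {ι : Type*} (k : ℕ) (a : ι → R) (s : Finset ι) :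
    ((PP' k a s : R[X]) : PowerSeries R) = PR k a s := by
  classical
  rw [PP', PR]
  induction s using Finset.induction_on with
  | empty => simp
  | insert x s hx ih =>
    rw [Finset.prod_insert hx, Finset.prod_insert hx, Polynomial.coe_mul, ih, Polynomial.coe_sub,
      Polynomial.coe_one, Polynomial.coe_mul, Polynomial.coe_C, Polynomial.coe_X]

/-- Truncation of the root. -/
lemma trunc_dvd {ι : Type*} {k n : ℕ} {a : ι → R} {s1 s2 : Finset ι} {G : PowerSeries R}
    (hG : PowerSeries.X ^ (n + 1) ∣ G ^ k * PR k a s2 - PR k a s1) :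
    (X : R[X]) ^ (n + 1) ∣ (PowerSeries.trunc (n + 1) G) ^ k * PP' k a s2 - PP' k a s1 := by
  set T := PowerSeries.trunc (n + 1) G with hT
  have h1 : PowerSeries.X ^ (n + 1) ∣ G - (T : PowerSeries R) := by
    rw [PowerSeries.X_pow_dvd_iff]
    intro m hm
    rw [map_sub, Polynomial.coeff_coe, hT, PowerSeries.coeff_trunc, if_pos hm, sub_self]
  have h2 : PowerSeries.X ^ (n + 1) ∣ G ^ k - (T : PowerSeries R) ^ k :=
    h1.trans (sub_dvd_pow_sub_pow _ _ _)
  have h3 : PowerSeries.X ^ (n + 1) ∣ (((T ^ k * PP' k a s2 - PP' k a s1 : R[X])) :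
      PowerSeries R) := by
    rw [Polynomial.coe_sub, Polynomial.coe_mul, Polynomial.coe_pow, coe_PP', coe_PP']
    have h4 := dvd_sub hG (dvd_mul_of_dvd_left h2 (PR k a s2))
    have h5 : G ^ k * PR k a s2 - PR k a s1 - (G ^ k - (T : PowerSeries R) ^ k) * PR k a s2
        = (T : PowerSeries R) ^ k * PR k a s2 - PR k a s1 := by ring
    rwa [h5] at h4
  rw [Polynomial.X_pow_dvd_iff]
  intro m hm
  rw [PowerSeries.X_pow_dvd_iff] at h3
  have := h3 m hm
  rwa [Polynomial.coeff_coe] at this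

/-- The main congruence. -/
theorem cong_main {ι : Type*} {k n e : ℕ} (hk : 1 ≤ k) {a : ι → R}
    {s1 s2 : Finset ι} {G : PowerSeries R} (h0 : PowerSeries.constantCoeff G = 1)
    (hG : PowerSeries.X ^ (n + 1) ∣ G ^ k * PR k a s2 - PR k a s1)
    {r q x y : R} (hq : q = r ^ e) (he : 1 ≤ e) (hrk : IsCoprime r (k : R)) (hrx : IsCoprime r x)
    (hx : x ^ k = ∏ i ∈ s1, (1 - a i * q)) (hy : y ^ k = ∏ i ∈ s2, (1 - a i * q))
    (hxy : r ∣ x - y) :
    q ^ (n + 1) ∣ ((k : R) ^ 2) ^ n * x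
      - (∑ j ∈ Finset.range (n + 1), PowerSeries.coeff j G * ((k : R) ^ 2) ^ (n - j) * q ^ j) * y := by
  set H := ∑ j ∈ Finset.range (n + 1), PowerSeries.coeff j G * ((k : R) ^ 2) ^ (n - j) * q ^ j
    with hH
  have hqk : IsCoprime q (k : R) := by rw [hq]; exact hrk.pow_left
  -- the quotient
  set I : Ideal R := Ideal.span {q ^ (n + 1)} with hI
  set π := Ideal.Quotient.mk I with hπ
  have hmem : ∀ z, π z = 0 ↔ q ^ (n + 1) ∣ z := by
    intro z
    rw [hπ, Ideal.Quotient.eq_zero_iff_mem, hI, Ideal.mem_span_singleton]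
  obtain ⟨u, v, huv⟩ := hqk.pow_left (m := n + 1)
  have hv : π v * π (k : R) = 1 := by
    have h1 := congrArg π huv
    rw [map_add, map_mul, map_mul, map_one, (hmem (q ^ (n + 1))).mpr dvd_rfl, mul_zero,
      zero_add] at h1
    exact h1
  set τ : R ⧸ I := π q * (π v) ^ 2 with hτ
  have hkτ : (π (k : R)) ^ 2 * τ = π q := by
    rw [hτ]
    calc (π (k : R)) ^ 2 * (π q * (π v) ^ 2) = π q * (π v * π (k : R)) ^ 2 := by ring
      _ = π q := by rw [hv]; ring
  have hτn : τ ^ (n + 1) = 0 := by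
    rw [hτ, mul_pow, ← map_pow, (hmem (q ^ (n + 1))).mpr dvd_rfl, zero_mul]
  -- evaluation
  have hdv := trunc_dvd hG
  obtain ⟨E, hE⟩ := hdv
  set T := PowerSeries.trunc (n + 1) G with hT
  have hev := congrArg (eval₂ π τ) hE
  have hPP : ∀ s : Finset ι, eval₂ π τ (PP' k a s) = π (∏ i ∈ s, (1 - a i * q)) := by
    intro s
    rw [PP', eval₂_finsetProd, map_prod]
    refine Finset.prod_congr rfl fun i _ => ?_
    rw [eval₂_sub, eval₂_one, eval₂_mul, eval₂_C, eval₂_X, map_sub, map_one, map_mul, map_mul,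
      map_pow, ← hkτ]
    ring
  rw [eval₂_sub, eval₂_mul, eval₂_pow, eval₂_mul, eval₂_pow, eval₂_X, hτn, zero_mul, hPP, hPP,
    ← hx, ← hy, sub_eq_zero] at hev
  -- `H`
  have hHT : π H = (π (k : R)) ^ (2 * n) * eval₂ π τ T := by
    have h1 : eval₂ π τ T = ∑ j ∈ Finset.range (n + 1), π (PowerSeries.coeff j G) * τ ^ j := by
      rw [hT, PowerSeries.eval₂_trunc_eq_sum_range]
    rw [h1, hH, map_sum, Finset.mul_sum]
    refine Finset.sum_congr rfl fun j hj => ?_
    rw [Finset.mem_range] at hj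
    rw [map_mul, map_mul, map_pow, map_pow, map_pow, ← hkτ, mul_pow]
    have h2 : (π (k : R)) ^ (2 * n) = ((π (k : R)) ^ 2) ^ (n - j) * ((π (k : R)) ^ 2) ^ j := by
      rw [← pow_mul, ← pow_mul, ← pow_add]; congr 1; omega
    rw [h2]
    ring
  have h1 : q ^ (n + 1) ∣ (((k : R) ^ 2) ^ n * x) ^ k - (H * y) ^ k := by
    rw [← hmem, map_sub, map_pow, map_pow, map_mul, map_mul, hHT, map_pow, map_pow, mul_pow,
      mul_pow, mul_pow, ← map_pow π x, ← map_pow π y, ← hev]
    ring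
  have h2 : r ∣ ((k : R) ^ 2) ^ n * x - H * y := by
    have h3 : q ∣ H - ((k : R) ^ 2) ^ n := by
      rw [hH, Finset.sum_range_succ']
      have h4 : PowerSeries.coeff 0 G * ((k : R) ^ 2) ^ (n - 0) * q ^ 0 = ((k : R) ^ 2) ^ n := by
        rw [PowerSeries.coeff_zero_eq_constantCoeff_apply, h0]; simp
      rw [h4, add_sub_cancel_right]
      refine Finset.dvd_sum fun j _ => ?_
      exact dvd_mul_of_dvd_right (dvd_pow_self q (by omega)) _
    have h4 : r ∣ q := by rw [hq]; exact dvd_pow_self r (by omega)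
    have h5 : ((k : R) ^ 2) ^ n * x - H * y
        = ((k : R) ^ 2) ^ n * (x - y) - (H - ((k : R) ^ 2) ^ n) * y := by ring
    rw [h5]
    exact dvd_sub (dvd_mul_of_dvd_right hxy _) (dvd_mul_of_dvd_left (h4.trans h3) _)
  have h3 : IsCoprime r (((k : R) ^ 2) ^ n * x) :=
    IsCoprime.mul_right (hrk.pow_right.pow_right) hrx
  have h4 : q ^ (n + 1) = r ^ (e * (n + 1)) := by rw [hq, ← pow_mul]
  rw [h4] at h1 ⊢
  exact Pool.Agent.H26.NL.rigid' hk hrk h3 h1 h2

end Pool.Agent.H25.NP
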