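import Mathlib

/-!
# Numerical estimates for the height bound
-/

set_option autoImplicit false

namespace Pool.Agent.H25.NP

lemma bern (n : ℕ) : (n + 8) * 8 ^ n ≤ 8 * 9 ^ n := by
  induction n with
  | zero => norm_num
  | succ n ih =>
    have h1 : (n + 1 + 8) * 8 ^ (n + 1) ≤ 9 * ((n + 8) * 8 ^ n) := by
      rw [pow_succ]
      have : 0 ≤ n * 8 ^ n := Nat.zero_le _
      nlinarith
    calc (n + 1 + 8) * 8 ^ (n + 1) ≤ 9 * ((n + 8) * 8 ^ n) := h1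
      _ ≤ 9 * (8 * 9 ^ n) := Nat.mul_le_mul_left 9 ih
      _ = 8 * 9 ^ (n + 1) := by rw [pow_succ]; ring

lemma fact_est' (m : ℕ) : (m + 1).factorial * (m + 3) * 8 ^ (m + 1) ^ 2
    ≤ 4 ^ (m + 1) * 9 ^ (m + 1) ^ 2 := by
  induction m with
  | zero => norm_num
  | succ m ih =>
    have e1 : (m + 1 + 1) ^ 2 = (m + 1) ^ 2 + (2 * (m + 1) + 1) := by ring
    rw [e1, pow_add, pow_add, Nat.factorial_succ]
    have h1 : (m + 3) * 8 ^ (2 * (m + 1) + 1) ≤ 4 * 9 ^ (2 * (m + 1) + 1) := by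
      have h2 := bern (2 * (m + 1) + 1)
      have h3 : 0 < 8 ^ (2 * (m + 1) + 1) := by positivity
      nlinarith
    have h2 : (m + 2) * (m + 4) ≤ (m + 3) * (m + 3) := by nlinarith
    calc (m + 1 + 1) * (m + 1).factorial * (m + 1 + 3) * (8 ^ (m + 1) ^ 2 * 8 ^ (2 * (m + 1) + 1))
        = ((m + 2) * (m + 4)) * ((m + 1).factorial * 8 ^ (m + 1) ^ 2
            * 8 ^ (2 * (m + 1) + 1)) := by ring
      _ ≤ ((m + 3) * (m + 3)) * ((m + 1).factorial * 8 ^ (m + 1) ^ 2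
            * 8 ^ (2 * (m + 1) + 1)) := Nat.mul_le_mul_right _ h2
      _ = ((m + 1).factorial * (m + 3) * 8 ^ (m + 1) ^ 2)
            * ((m + 3) * 8 ^ (2 * (m + 1) + 1)) := by ring
      _ ≤ (4 ^ (m + 1) * 9 ^ (m + 1) ^ 2) * (4 * 9 ^ (2 * (m + 1) + 1)) := Nat.mul_le_mul ih h1
      _ = 4 ^ (m + 1 + 1) * 9 ^ ((m + 1) ^ 2 + (2 * (m + 1) + 1)) := by
        rw [pow_add 9, pow_succ 4 (m + 1)]; ring

/-- The constant. -/
lemma const_est (m : ℕ) : (m + 1).factorial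
    * (((m + 2) * (m + (2 * m + 1)).choose (2 * m + 1) + 1)
      * ((m + (2 * m + 1)).choose (2 * m + 1)) ^ m) ≤ 9 ^ (m + 1) ^ 2 := by
  set β := (m + (2 * m + 1)).choose (2 * m + 1) with hβ
  have hβ1 : 1 ≤ β := Nat.choose_pos (by omega)
  have hβ2 : β ≤ 2 ^ (3 * m + 1) := by
    have h1 := Nat.choose_le_two_pow (m + (2 * m + 1)) (2 * m + 1)
    have e1 : m + (2 * m + 1) = 3 * m + 1 := by ring
    rw [e1] at h1
    rw [hβ, e1]
    exact h1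
  have h1 : ((m + 2) * β + 1) * β ^ m ≤ (m + 3) * β ^ (m + 1) := by
    rw [pow_succ']
    calc ((m + 2) * β + 1) * β ^ m ≤ ((m + 2) * β + β) * β ^ m :=
          Nat.mul_le_mul_right _ (by omega)
      _ = (m + 3) * (β * β ^ m) := by ring
  have h2 : β ^ (m + 1) ≤ 2 ^ ((3 * m + 1) * (m + 1)) := by
    rw [pow_mul]
    exact Nat.pow_le_pow_left hβ2 _
  have h3 : 2 ^ ((3 * m + 1) * (m + 1)) * 4 ^ (m + 1) = 8 ^ (m + 1) ^ 2 := by
    have e1 : (8 : ℕ) = 2 ^ 3 := by norm_num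
    have e2 : (4 : ℕ) = 2 ^ 2 := by norm_num
    rw [e1, e2, ← pow_mul, ← pow_mul, ← pow_add]
    congr 1
    ring
  have h4 := fact_est' m
  have h5 : (m + 1).factorial * (m + 3) * 2 ^ ((3 * m + 1) * (m + 1)) ≤ 9 ^ (m + 1) ^ 2 := by
    rw [← h3] at h4
    have h6 : 0 < 4 ^ (m + 1) := by positivity
    refine Nat.le_of_mul_le_mul_left ?_ h6
    calc 4 ^ (m + 1) * ((m + 1).factorial * (m + 3) * 2 ^ ((3 * m + 1) * (m + 1)))
        = (m + 1).factorial * (m + 3) * (2 ^ ((3 * m + 1) * (m + 1)) * 4 ^ (m + 1)) := by ring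
      _ ≤ 4 ^ (m + 1) * 9 ^ (m + 1) ^ 2 := h4
  calc (m + 1).factorial * (((m + 2) * β + 1) * β ^ m)
      ≤ (m + 1).factorial * ((m + 3) * β ^ (m + 1)) := Nat.mul_le_mul_left _ h1
    _ ≤ (m + 1).factorial * ((m + 3) * 2 ^ ((3 * m + 1) * (m + 1))) := by gcongr
    _ = (m + 1).factorial * (m + 3) * 2 ^ ((3 * m + 1) * (m + 1)) := by ring
    _ ≤ 9 ^ (m + 1) ^ 2 := h5

end Pool.Agent.H25.NP
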