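import Pool.Agent.H25.NP.Size
import Pool.Agent.H25.NP.Cong
import Pool.Agent.H25.NP.Num
import Pool.Agent.H25.NW.Obst

/-!
# The main estimate
-/

set_option autoImplicit false

namespace Pool.Agent.H25.NP

open NumberField Polynomial Pool.Agent.H26.NL Pool.Agent.H25.NW

noncomputable section

variable {d : ℕ} [hd : Fact d.Prime] {K : Type} [Field K] [NumberField K]
  [IsCyclotomicExtension {d} ℚ K]

variable (d) in
include hd in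
lemma nm_le_of (α : 𝓞 K) (C : ℝ) (hC : ∀ f : 𝓞 K →+* ℂ, ‖f α‖ ≤ C) :
    (nm α : ℝ) ≤ C ^ (d - 1) := by
  rw [nm_eq]
  have hcard : Fintype.card (K →ₐ[ℚ] ℂ) = d - 1 := by
    rw [AlgHom.card, finrank_K d K]
  calc ∏ σ : K →ₐ[ℚ] ℂ, ‖σ (algebraMap (𝓞 K) K α)‖
      ≤ ∏ _σ : K →ₐ[ℚ] ℂ, C := by
        refine Finset.prod_le_prod (fun σ _ => norm_nonneg _) fun σ _ => ?_
        exact hC (σ.toRingHom.comp (algebraMap (𝓞 K) K))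
    _ = C ^ (d - 1) := by rw [Finset.prod_const, Finset.card_univ, hcard]

/-- The main estimate. -/
theorem main_est {p k q r e : ℕ} (S : Sol d p k q) (Dt : Dat r e k q)
    {ι : Type*} {a : ι → 𝓞 K} {s1 s2 : Finset ι} {X Y : 𝓞 K} {m : ℕ}
    (hX : X ^ k = ∏ i ∈ s1, (1 - a i * q)) (hY : Y ^ k = ∏ i ∈ s2, (1 - a i * q))
    (hXY : (q : 𝓞 K) ∣ X - Y) (hrX : IsCoprime (r : 𝓞 K) X) (hY0 : Y ≠ 0)
    (hpw : ∀ (f : 𝓞 K →+* ℂ) (j : ℕ), ‖f (pw a s1 s2 (j + 1))‖ ≤ (k : ℝ) * ((m : ℝ) + 1))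
    (hnil : ∀ M : ℕ, ¬ (k : 𝓞 K) ∣ (pw a s1 s2 1) ^ M)
    {P : ℝ} (hP : ∀ f : 𝓞 K →+* ℂ, ‖f X‖ ≤ P) (hP' : ∀ f : 𝓞 K →+* ℂ, ‖f Y‖ ≤ P)
    {I : Ideal (𝓞 K)} (hXI : X ∈ I) (hYI : Y ∈ I)
    (hI : IsCoprime (Ideal.span {(q : 𝓞 K)}) I) :
    (q : ℝ) ^ ((m + 1) * (d - 1)) * (Ideal.absNorm I : ℝ)
      ≤ ((3 * (k : ℝ)) ^ (2 * (m + 1) ^ 2) * P) ^ (d - 1) := by
  have hk1 : 1 ≤ k := by have := S.hk; omega
  have hq0 : 0 < q := by have := S.hq; omega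
  have hqe : (q : 𝓞 K) = (r : 𝓞 K) ^ e := by rw [Dt.hq]; push_cast; rfl
  have hrq : (r : 𝓞 K) ∣ (q : 𝓞 K) := by rw [hqe]; exact dvd_pow_self _ (by have := Dt.he; omega)
  obtain ⟨G, hG0, hG⟩ := exists_G k a s1 s2 (2 * m + 1)
  set φ : ℕ → 𝓞 K := fun j => PowerSeries.coeff j G with hφ
  have hfact := fact_phi hk1 hG0 hG
  have hgc := gs_congr k (pw a s1 s2)
  have ht1 : (Toe φ (m + 1) m).det ≠ 0 :=
    toe_ne (by omega) hfact hgc hnil (by omega) (by omega)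
  have ht2 : (Toe φ (m + 1) (m + 1)).det ≠ 0 :=
    toe_ne (by omega) hfact hgc hnil (by omega) (by omega)
  have hqR : (q : 𝓞 K) ≠ 0 := Nat.cast_ne_zero.mpr (by omega)
  have hne := EM_ne (κ := (k : 𝓞 K) ^ 2) (X := X) ht1 ht2 hqR hY0
  obtain ⟨s, hs, hdet⟩ : ∃ s ≤ 1, (EM φ ((k : 𝓞 K) ^ 2) (q : 𝓞 K) X Y m s).det ≠ 0 := by
    rcases hne with h | h
    · exact ⟨0, by omega, h⟩
    · exact ⟨1, le_refl _, h⟩
  set α := (EM φ ((k : 𝓞 K) ^ 2) (q : 𝓞 K) X Y m s).det with hα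
  have hcong := cong_main (n := 2 * m + 1) (e := e) hk1 hG0 hG hqe Dt.he Dt.coprime hrX hX hY
    (hrq.trans hXY)
  have hcop : IsCoprime (q : 𝓞 K) ((k : 𝓞 K) ^ 2) := by
    rw [hqe]; exact (Dt.coprime (R := 𝓞 K)).pow
  have hdvd : (q : 𝓞 K) ^ (2 * m + 2) ∣ α := EM_dvd hs hcong hcop
  have hmem : α ∈ I := EM_mem I hXI hYI
  -- the norm from below
  have hlow := le_nm (d := d) (q := q ^ (2 * m + 2)) hdet (by push_cast; exact hdvd) hmem (by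
    push_cast
    rw [← Ideal.span_singleton_pow]
    exact hI.pow_left)
  -- size
  have hsize : ∀ f : 𝓞 K →+* ℂ, ‖f α‖ ≤ (q : ℝ) ^ (m + 1)
      * ((3 * (k : ℝ)) ^ (2 * (m + 1) ^ 2) * P) := by
    intro f
    have hb : ∀ j, ‖f (pw a s1 s2 (j + 1))‖ ≤ (k : ℝ) * ((m : ℝ) + 1) := hpw f
    have hph := phi_le (b := m) hk1 hG0 hG f hb
    have h1 := EM_bound (b := m) hk1 hs hq0 f (hP f) (hP' f) (φ := φ) (m := m) hph
    refine h1.trans ?_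
    have h2 := const_est m
    set β := (m + (2 * m + 1)).choose (2 * m + 1) with hβ
    have h3 : ((m + 1).factorial : ℝ) * ((((m : ℝ) + 2) * (β : ℝ) + 1) * (β : ℝ) ^ m)
        ≤ 9 ^ (m + 1) ^ 2 := by exact_mod_cast h2
    have hP0 : 0 ≤ P := (norm_nonneg _).trans (hP f)
    have e1 : (3 * (k : ℝ)) ^ (2 * (m + 1) ^ 2) = 9 ^ (m + 1) ^ 2 * ((k : ℝ) ^ 2) ^ ((m + 1) ^ 2) := by
      rw [pow_mul, ← mul_pow]
      congr 1
      ring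
    rw [e1]
    calc ((m + 1).factorial : ℝ) * (P * (q : ℝ) ^ (m + 1) * (((m : ℝ) + 2) * (β : ℝ) + 1)
          * (β : ℝ) ^ m) * ((k : ℝ) ^ 2) ^ ((m + 1) ^ 2)
        = (((m + 1).factorial : ℝ) * ((((m : ℝ) + 2) * (β : ℝ) + 1) * (β : ℝ) ^ m))
          * (P * (q : ℝ) ^ (m + 1) * ((k : ℝ) ^ 2) ^ ((m + 1) ^ 2)) := by ring
      _ ≤ 9 ^ (m + 1) ^ 2 * (P * (q : ℝ) ^ (m + 1) * ((k : ℝ) ^ 2) ^ ((m + 1) ^ 2)) := by
          gcongr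
      _ = _ := by ring
  have hup := nm_le_of d α _ hsize
  have hlow' : ((q : ℝ) ^ (2 * m + 2)) ^ (d - 1) * (Ideal.absNorm I : ℝ) ≤ (nm α : ℝ) := by
    exact_mod_cast hlow
  have hq0' : (0 : ℝ) < q := by exact_mod_cast hq0
  have h5 := hlow'.trans hup
  rw [mul_pow] at h5
  have e2 : ((q : ℝ) ^ (2 * m + 2)) ^ (d - 1)
      = ((q : ℝ) ^ (m + 1)) ^ (d - 1) * (q : ℝ) ^ ((m + 1) * (d - 1)) := by
    rw [pow_mul, ← mul_pow]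
    congr 1
    rw [← pow_add]
    congr 1
    ring
  rw [e2, mul_assoc] at h5
  exact le_of_mul_le_mul_left h5 (by positivity)

end

end Pool.Agent.H25.NP
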