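import Pool.Agent.H25.NP.Pw

/-!
# The height inequality for the prime-power Nagell-Ljunggren equation
-/

set_option autoImplicit false

namespace Pool.Agent.H25.NP

open NumberField Polynomial Pool.Agent.H26.NL Pool.Agent.H25.NW

noncomputable section

variable {d : ℕ} [hd : Fact d.Prime] {K : Type} [Field K] [NumberField K]
  [IsCyclotomicExtension {d} ℚ K]

lemma sg_PP' (q : ℕ) (t : (ZMod d)ˣ) : sg t⁻¹ (PP d K q) = 1 - Zt d K t * q := by
  rw [sg_PP, Zt]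

lemma coprime_x {p k q r e : ℕ} (hk : 1 ≤ k) (Dt : Dat r e k q) {A : Finset (ZMod d)ˣ} {x : 𝓞 K}
    (hx : WW p k q A x) : IsCoprime (r : 𝓞 K) x := by
  obtain ⟨z, hz⟩ := hx.pow_sub_one
  have hqe : (q : 𝓞 K) = (r : 𝓞 K) ^ e := by rw [Dt.hq]; push_cast; rfl
  have he := Dt.he
  refine ⟨-((r : 𝓞 K) ^ (e - 1) * z), x ^ (k - 1), ?_⟩
  have h1 : (r : 𝓞 K) ^ e = (r : 𝓞 K) ^ (e - 1) * r := by rw [← pow_succ]; congr 1; omega
  have h2 : x ^ k = x ^ (k - 1) * x := by rw [← pow_succ]; congr 1; omega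
  rw [hqe, h1] at hz
  rw [← h2]
  linear_combination hz

lemma x_ne {p k q : ℕ} (hp : p.Prime) {A : Finset (ZMod d)ˣ} {x : 𝓞 K}
    (hx : WW p k q A x) : x ≠ 0 := by
  rintro rfl
  have h := hx.norm
  rw [zero_mul] at h
  exact (Nat.cast_ne_zero (R := 𝓞 K)).mpr hp.ne_zero h.symm

lemma abs_eq_sqrt {p k q : ℕ} {A : Finset (ZMod d)ˣ} {x : 𝓞 K}
    (hx : WW p k q A x) (f : 𝓞 K →+* ℂ) : ‖f x‖ = Real.sqrt p := by
  rw [← hx.abs f, Real.sqrt_sq (norm_nonneg _)]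

/-- The general inequality over a cyclotomic field. -/
theorem hbB {p k q r e m : ℕ} (S : Sol d p k q) (Dt : Dat r e k q) (h7 : 7 ≤ d)
    (hodd : Odd k) (hcop : Nat.Coprime k d)
    {x y : 𝓞 K} (hx : WW p k q (AA d 1 2) x) (hy : WW p k q (AA d 2 2) y) {ρ : (ZMod d)ˣ}
    (hρ : ρ ≠ 1) (hcx : (q : 𝓞 K) ∣ sg ρ x - x) (hcy : (q : 𝓞 K) ∣ sg ρ y - y)
    (hm : 4 * (d / 3 - d / 4) ≤ k * (m + 1)) :
    q ^ ((m + 1) * (d - 1)) ≤ (3 * k) ^ (2 * (m + 1) ^ 2 * (d - 1))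
      * p ^ (2 * (d / 3 - d / 4)) := by
  have hpf : Fact p.Prime := ⟨S.hp⟩
  have hk1 : 1 ≤ k := by have := S.hk; omega
  set X : 𝓞 K := sg ρ x * y with hXd
  set Y : 𝓞 K := sg ρ y * x with hYd
  set a : (ZMod d)ˣ ⊕ (ZMod d)ˣ → 𝓞 K :=
    Sum.elim (fun t => sg ρ (Zt d K t)) (fun t => Zt d K t) with ha
  set s1 := (AA d 1 2).disjSum (AA d 2 2) with hs1
  set s2 := (AA d 2 2).disjSum (AA d 1 2) with hs2
  have hprod : ∀ A B : Finset (ZMod d)ˣ, ∏ i ∈ A.disjSum B, (1 - a i * q)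
      = sg ρ (∏ t ∈ A, sg t⁻¹ (PP d K q)) * ∏ t ∈ B, sg t⁻¹ (PP d K q) := by
    intro A B
    rw [Finset.prod_disjSum, map_prod]
    congr 1
    · refine Finset.prod_congr rfl fun t _ => ?_
      rw [sg_PP', map_sub, map_one, map_mul, map_natCast, ha, Sum.elim_inl]
    · refine Finset.prod_congr rfl fun t _ => ?_
      rw [sg_PP', ha, Sum.elim_inr]
  have hX : X ^ k = ∏ i ∈ s1, (1 - a i * q) := by
    rw [hs1, hprod, ← hx.pow, ← hy.pow, hXd, mul_pow, map_pow]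
  have hY : Y ^ k = ∏ i ∈ s2, (1 - a i * q) := by
    rw [hs2, hprod, ← hx.pow, ← hy.pow, hYd, mul_pow, map_pow]
  have hXY : (q : 𝓞 K) ∣ X - Y := by
    have : X - Y = (sg ρ x - x) * y - (sg ρ y - y) * x := by rw [hXd, hYd]; ring
    rw [this]
    exact dvd_sub (dvd_mul_of_dvd_left hcx _) (dvd_mul_of_dvd_left hcy _)
  have hrX : IsCoprime (r : 𝓞 K) X :=
    (coprime_sg ρ (coprime_x hk1 Dt hx)).mul_right (coprime_x hk1 Dt hy)
  have hY0 : Y ≠ 0 := by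
    refine mul_ne_zero ?_ (x_ne S.hp hx)
    intro h
    exact x_ne S.hp hy (sg_inj ρ (by rw [h, map_zero]))
  have hpwj : ∀ j, pw a s1 s2 j = UU d K j - sg ρ (UU d K j) := by
    intro j
    rw [pw, hs1, hs2, Finset.sum_disjSum, Finset.sum_disjSum, UU, map_sub, map_sum, map_sum]
    simp only [ha, Sum.elim_inl, Sum.elim_inr, map_pow]
    ring
  have hpw : ∀ (f : 𝓞 K →+* ℂ) (j : ℕ), ‖f (pw a s1 s2 (j + 1))‖ ≤ (k : ℝ) * ((m : ℝ) + 1) := by
    intro f j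
    rw [hpwj, map_sub]
    refine (norm_sub_le _ _).trans ?_
    have h1 := UU_norm (d := d) (K := K) h7 (j + 1) f
    have h2 := UU_norm (d := d) (K := K) h7 (j + 1) (f.comp (sg ρ))
    rw [RingHom.comp_apply] at h2
    have h3 : 4 * ((d / 3 - d / 4 : ℕ) : ℝ) ≤ (k : ℝ) * ((m : ℝ) + 1) := by exact_mod_cast hm
    linarith
  have hnil : ∀ M : ℕ, ¬ (k : 𝓞 K) ∣ (pw a s1 s2 1) ^ M := by
    intro M
    have h1 : pw a s1 s2 1 = ∑ b : (ZMod d)ˣ, ((wc d b - wc d (ρ⁻¹ * b) : ℤ) : 𝓞 K)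
        * zt d K ^ (b : ZMod d).val := by
      rw [hpwj, UU_one, sg_sum, ← Finset.sum_sub_distrib]
      refine Finset.sum_congr rfl fun b _ => ?_
      push_cast
      ring
    rw [h1]
    refine not_nil S.hk hodd hcop _ ?_ (wc_twist h7 hρ) M
    intro b
    have h2 := abs_sub (wc d b) (wc d (ρ⁻¹ * b))
    have h3 := wc_le b
    have h4 := wc_le (ρ⁻¹ * b)
    omega
  have hp0 : (0 : ℝ) ≤ p := Nat.cast_nonneg _
  have hP : ∀ f : 𝓞 K →+* ℂ, ‖f X‖ ≤ (p : ℝ) := by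
    intro f
    have h1 := abs_eq_sqrt hx (f.comp (sg ρ))
    rw [RingHom.comp_apply] at h1
    rw [hXd, map_mul, norm_mul, h1, abs_eq_sqrt hy f, Real.mul_self_sqrt hp0]
  have hP' : ∀ f : 𝓞 K →+* ℂ, ‖f Y‖ ≤ (p : ℝ) := by
    intro f
    have h1 := abs_eq_sqrt hy (f.comp (sg ρ))
    rw [RingHom.comp_apply] at h1
    rw [hYd, map_mul, norm_mul, h1, abs_eq_sqrt hx f, Real.mul_self_sqrt hp0]
  -- the ideal
  set T' : Finset (ZMod d)ˣ := (TT d).image (fun t => t * ρ⁻¹) with hT'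
  have hcard : T'.card = (TT d).card := by
    rw [hT', Finset.card_image_of_injective _ (mul_left_injective ρ⁻¹)]
  have hxG : ∀ z : 𝓞 K, (∀ t ∈ TT d, S.phi (sg t z) = 0) → sg ρ z ∈ S.GG K T' := by
    intro z hz
    apply S.mem_GG
    intro s hs
    rw [hT'] at hs
    obtain ⟨t, ht, rfl⟩ := Finset.mem_image.mp hs
    rw [← sg_mul, inv_mul_cancel_right]
    exact hz t ht
  have hzx : ∀ t ∈ TT d, S.phi (sg t x) = 0 := fun t ht =>
    (hx.phi_iff S t).mpr (TT_sub (by omega) ht).1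
  have hzy : ∀ t ∈ TT d, S.phi (sg t y) = 0 := fun t ht =>
    (hy.phi_iff S t).mpr (TT_sub (by omega) ht).2
  have hXI : X ∈ S.GG K T' * S.GG K (TT d) :=
    Ideal.mul_mem_mul (hxG x hzx) (S.mem_GG _ _ hzy)
  have hYI : Y ∈ S.GG K T' * S.GG K (TT d) :=
    Ideal.mul_mem_mul (hxG y hzy) (S.mem_GG _ _ hzx)
  have hI : IsCoprime (Ideal.span {(q : 𝓞 K)}) (S.GG K T' * S.GG K (TT d)) :=
    (S.q_coprime_GG T').mul_right (S.q_coprime_GG (TT d))
  have hmain := main_est S Dt hX hY hXY hrX hY0 hpw hnil hP hP' hXI hYI hI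
  rw [map_mul, S.absNorm_GG, S.absNorm_GG, hcard, ← pow_add] at hmain
  have h1 : q ^ ((m + 1) * (d - 1)) * p ^ ((TT d).card + (TT d).card)
      ≤ ((3 * k) ^ (2 * (m + 1) ^ 2) * p) ^ (d - 1) := by exact_mod_cast hmain
  have h2 : ((3 * k) ^ (2 * (m + 1) ^ 2) * p) ^ (d - 1)
      ≤ (3 * k) ^ (2 * (m + 1) ^ 2 * (d - 1)) * p ^ (2 * (d / 3 - d / 4))
        * p ^ ((TT d).card + (TT d).card) := by
    rw [mul_pow, ← pow_mul, mul_assoc ((3 * k) ^ (2 * (m + 1) ^ 2 * (d - 1))), ← pow_add]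
    refine Nat.mul_le_mul_left _ (Nat.pow_le_pow_right S.hp.pos ?_)
    have := card_TT (d := d) (by omega)
    omega
  have h3 : 0 < p ^ ((TT d).card + (TT d).card) := pow_pos S.hp.pos _
  exact Nat.le_of_mul_le_mul_right (h1.trans h2) h3

/-- The inequality when all normalised sums are congruent to integers. -/
theorem hbA {p k q r e m : ℕ} (S : Sol d p k q) (Dt : Dat r e k q) (h7 : 7 ≤ d)
    (hodd : Odd k) (hcop : Nat.Coprime k d)
    {x y : 𝓞 K} (hx : WW p k q (AA d 1 2) x) (hy : WW p k q (AA d 2 2) y)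
    (hcx : (q : 𝓞 K) ∣ sg (-1 : (ZMod d)ˣ) x - x) (hcy : (q : 𝓞 K) ∣ sg (-1 : (ZMod d)ˣ) y - y)
    (hm : 2 * (d / 3 - d / 4) ≤ k * (m + 1)) :
    q ^ ((m + 1) * (d - 1)) ≤ (3 * k) ^ (2 * (m + 1) ^ 2 * (d - 1))
      * p ^ (d / 3 - d / 4) := by
  have hpf : Fact p.Prime := ⟨S.hp⟩
  have hk1 : 1 ≤ k := by have := S.hk; omega
  set a : (ZMod d)ˣ → 𝓞 K := fun t => Zt d K t with ha
  have hX : x ^ k = ∏ i ∈ AA d 1 2, (1 - a i * q) := by
    rw [hx.pow]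
    exact Finset.prod_congr rfl fun t _ => sg_PP' q t
  have hY : y ^ k = ∏ i ∈ AA d 2 2, (1 - a i * q) := by
    rw [hy.pow]
    exact Finset.prod_congr rfl fun t _ => sg_PP' q t
  have hXY : (q : 𝓞 K) ∣ x - y := by
    have := dvd_sub (hx.cong_p hodd hcx) (hy.cong_p hodd hcy)
    have h1 : x - (p : 𝓞 K) ^ ((k + 1) / 2) - (y - (p : 𝓞 K) ^ ((k + 1) / 2)) = x - y := by
      ring
    rwa [h1] at this
  have hpwj : ∀ j, pw a (AA d 1 2) (AA d 2 2) j = -UU d K j := by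
    intro j
    rw [pw, UU]
    ring
  have hpw : ∀ (f : 𝓞 K →+* ℂ) (j : ℕ), ‖f (pw a (AA d 1 2) (AA d 2 2) (j + 1))‖
      ≤ (k : ℝ) * ((m : ℝ) + 1) := by
    intro f j
    rw [hpwj, map_neg, norm_neg]
    have h1 := UU_norm (d := d) (K := K) h7 (j + 1) f
    have h3 : 2 * ((d / 3 - d / 4 : ℕ) : ℝ) ≤ (k : ℝ) * ((m : ℝ) + 1) := by exact_mod_cast hm
    linarith
  have hnil : ∀ M : ℕ, ¬ (k : 𝓞 K) ∣ (pw a (AA d 1 2) (AA d 2 2) 1) ^ M := by
    intro M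
    have h1 : pw a (AA d 1 2) (AA d 2 2) 1 = ∑ b : (ZMod d)ˣ, ((-wc d b : ℤ) : 𝓞 K)
        * zt d K ^ (b : ZMod d).val := by
      rw [hpwj, UU_one, ← Finset.sum_neg_distrib]
      refine Finset.sum_congr rfl fun b _ => ?_
      push_cast
      ring
    rw [h1]
    refine not_nil S.hk hodd hcop _ ?_ ?_ M
    · intro b
      have h3 := wc_le b
      rw [abs_neg]
      omega
    · obtain ⟨b, hb⟩ := wc_ne (d := d) h7
      exact ⟨b, neg_ne_zero.mpr hb⟩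
  have hp0 : (0 : ℝ) ≤ p := Nat.cast_nonneg _
  have hzx : ∀ t ∈ TT d, S.phi (sg t x) = 0 := fun t ht =>
    (hx.phi_iff S t).mpr (TT_sub (by omega) ht).1
  have hzy : ∀ t ∈ TT d, S.phi (sg t y) = 0 := fun t ht =>
    (hy.phi_iff S t).mpr (TT_sub (by omega) ht).2
  have hmain := main_est S Dt hX hY hXY (coprime_x hk1 Dt hx) (x_ne S.hp hy) hpw hnil
    (fun f => (abs_eq_sqrt hx f).le) (fun f => (abs_eq_sqrt hy f).le)
    (S.mem_GG (TT d) _ hzx) (S.mem_GG (TT d) _ hzy) (S.q_coprime_GG (TT d))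
  rw [S.absNorm_GG] at hmain
  have h2 : ((3 * (k : ℝ)) ^ (2 * (m + 1) ^ 2) * Real.sqrt p) ^ (d - 1)
      ≤ (3 * (k : ℝ)) ^ (2 * (m + 1) ^ 2 * (d - 1)) * (p : ℝ) ^ (d / 3 - d / 4)
        * (p : ℝ) ^ (TT d).card := by
    rw [mul_pow, ← pow_mul, mul_assoc ((3 * (k : ℝ)) ^ (2 * (m + 1) ^ 2 * (d - 1))), ← pow_add]
    refine mul_le_mul_of_nonneg_left ?_ (by positivity)
    have h3 : (1 : ℝ) ≤ Real.sqrt p := by
      rw [Real.one_le_sqrt]
      exact_mod_cast S.hp.one_lt.le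
    have h4 : Real.sqrt p ^ (d - 1) ≤ Real.sqrt p ^ (2 * (d / 3 - d / 4 + (TT d).card)) := by
      refine pow_le_pow_right₀ h3 ?_
      have := card_TT (d := d) (by omega)
      omega
    refine h4.trans (le_of_eq ?_)
    rw [pow_mul, Real.sq_sqrt hp0]
  have h3 : (0 : ℝ) < (p : ℝ) ^ (TT d).card := pow_pos (by exact_mod_cast S.hp.pos) _
  push_cast at hmain
  have h4 := le_of_mul_le_mul_right (hmain.trans h2) h3
  exact_mod_cast h4

/-- The general inequality. -/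
theorem heightB7 {d p k r e m : ℕ} (hd : d.Prime) (hd7 : 7 ≤ d) (hp : p.Prime) (hr : r.Prime)
    (he : 1 ≤ e) (hk : 1 < k) (hodd : Odd k) (hkr : k ∣ r - 1)
    (h : ((r ^ e) ^ d - 1) / (r ^ e - 1) = p ^ k) (hm : 4 * (d / 3 - d / 4) ≤ k * (m + 1)) :
    (r ^ e) ^ ((m + 1) * (d - 1)) ≤ (3 * k) ^ (2 * (m + 1) ^ 2 * (d - 1))
      * p ^ (2 * (d / 3 - d / 4)) := by
  have : Fact d.Prime := ⟨hd⟩
  have hpf : Fact p.Prime := ⟨hp⟩
  have S := sol_of_eq (by omega) hp hr he hk h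
  have hrd : ¬ d ∣ r - 1 := S.not_dvd_r hr
  have D : Dat r e k (r ^ e) := ⟨hr, he, rfl, hkr⟩
  obtain ⟨K, hF, hN, hC⟩ := exists_field d
  have hkd : Nat.Coprime k d := by
    rw [Nat.coprime_comm, Nat.Prime.coprime_iff_not_dvd hd]
    exact fun h => hrd (h.trans hkr)
  have hcop : Nat.Coprime k (2 * d) := Nat.Coprime.mul_right hodd.coprime_two_right hkd
  have hnd : ∀ c : ℕ, 1 ≤ c → c ≤ 4 → ¬ d ∣ c := by
    intro c h1 h2 h3
    have := Nat.le_of_dvd h1 h3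
    omega
  obtain ⟨x, hx⟩ := S.exists_WW (K := K) hcop (a := 1) (b := 2) (hnd _ (by omega) (by omega))
    (hnd _ (by omega) (by omega)) (hnd _ (by omega) (by omega))
  obtain ⟨y, hy⟩ := S.exists_WW (K := K) hcop (a := 2) (b := 2) (hnd _ (by omega) (by omega))
    (hnd _ (by omega) (by omega)) (hnd _ (by omega) (by omega))
  by_cases hrd' : r = d
  · have hne : (-1 : (ZMod d)ˣ) ≠ 1 := by
      intro h1
      have h2 : ((-1 : (ZMod d)ˣ) : ZMod d) = ((1 : (ZMod d)ˣ) : ZMod d) := by rw [h1]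
      have h3 : ((2 : ℕ) : ZMod d) = 0 := by
        push_cast
        simp only [Units.val_neg, Units.val_one] at h2
        linear_combination -h2
      exact hnd 2 (by omega) (by omega) ((ZMod.natCast_eq_zero_iff _ _).mp h3)
    exact hbB S D hd7 hodd hkd hx hy hne (hx.cong_d hk.le D hrd' _) (hy.cong_d hk.le D hrd' _) hm
  · have hcr : r.Coprime d := (Nat.coprime_primes hr hd).mpr hrd'
    have hρ : ((ZMod.unitOfCoprime r hcr : (ZMod d)ˣ) : ZMod d) = (r : ZMod d) :=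
      ZMod.coe_unitOfCoprime r hcr
    refine hbB S D hd7 hodd hkd hx hy (ρ := ZMod.unitOfCoprime r hcr) ?_
      (hx.cong hk.le D _ hρ) (hy.cong hk.le D _ hρ) hm
    intro h1
    rw [h1] at hρ
    have h2 : ((r : ℕ) : ZMod d) = ((1 : ℕ) : ZMod d) := by
      rw [← hρ]; simp
    have h3 := (ZMod.natCast_eq_natCast_iff _ _ _).mp h2
    exact hrd ((Nat.modEq_iff_dvd' hr.one_lt.le).mp h3.symm)

/-- The inequality in the even order case. -/
theorem heightA7 {d p k r e m : ℕ} (hd : d.Prime) (hd7 : 7 ≤ d) (hp : p.Prime) (hr : r.Prime)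
    (he : 1 ≤ e) (hk : 1 < k) (hodd : Odd k) (hkr : k ∣ r - 1)
    (hrd : r = d ∨ ∃ j : ℕ, d ∣ r ^ j + 1)
    (h : ((r ^ e) ^ d - 1) / (r ^ e - 1) = p ^ k) (hm : 2 * (d / 3 - d / 4) ≤ k * (m + 1)) :
    (r ^ e) ^ ((m + 1) * (d - 1)) ≤ (3 * k) ^ (2 * (m + 1) ^ 2 * (d - 1))
      * p ^ (d / 3 - d / 4) := by
  have : Fact d.Prime := ⟨hd⟩
  have hpf : Fact p.Prime := ⟨hp⟩
  have S := sol_of_eq (by omega) hp hr he hk h
  have D : Dat r e k (r ^ e) := ⟨hr, he, rfl, hkr⟩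
  obtain ⟨K, hF, hN, hC⟩ := exists_field d
  have hnr : ¬ d ∣ r - 1 := S.not_dvd_r hr
  have hkd : Nat.Coprime k d := by
    rw [Nat.coprime_comm, Nat.Prime.coprime_iff_not_dvd hd]
    exact fun h => hnr (h.trans hkr)
  have hcop : Nat.Coprime k (2 * d) := Nat.Coprime.mul_right hodd.coprime_two_right hkd
  have hnd : ∀ c : ℕ, 1 ≤ c → c ≤ 4 → ¬ d ∣ c := by
    intro c h1 h2 h3
    have := Nat.le_of_dvd h1 h3
    omega
  obtain ⟨x, hx⟩ := S.exists_WW (K := K) hcop (a := 1) (b := 2) (hnd _ (by omega) (by omega))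
    (hnd _ (by omega) (by omega)) (hnd _ (by omega) (by omega))
  obtain ⟨y, hy⟩ := S.exists_WW (K := K) hcop (a := 2) (b := 2) (hnd _ (by omega) (by omega))
    (hnd _ (by omega) (by omega)) (hnd _ (by omega) (by omega))
  rcases hrd with hrd' | ⟨j, hj⟩
  · exact hbA S D hd7 hodd hkd hx hy (hx.cong_d hk.le D hrd' _) (hy.cong_d hk.le D hrd' _) hm
  · have hcr : r.Coprime d := by
      rw [Nat.coprime_comm, Nat.Prime.coprime_iff_not_dvd hd]
      intro h1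
      rcases Nat.eq_zero_or_pos j with rfl | hj0
      · rw [pow_zero] at hj
        have := Nat.le_of_dvd (by omega) hj
        omega
      · have h2 : d ∣ r ^ j := dvd_pow h1 (by omega)
        have h3 := (Nat.dvd_add_right h2).mp hj
        exact hd.one_lt.ne' (Nat.dvd_one.mp h3)
    have hρ : ((ZMod.unitOfCoprime r hcr : (ZMod d)ˣ) : ZMod d) = (r : ZMod d) :=
      ZMod.coe_unitOfCoprime r hcr
    have hpow : (ZMod.unitOfCoprime r hcr) ^ j = (-1 : (ZMod d)ˣ) := by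
      apply Units.ext
      rw [Units.val_pow_eq_pow_val, hρ, Units.val_neg, Units.val_one]
      have h1 : ((r ^ j + 1 : ℕ) : ZMod d) = 0 := (ZMod.natCast_eq_zero_iff _ _).mpr hj
      push_cast at h1
      linear_combination h1
    have hcx := cong_iter (hx.cong hk.le D _ hρ) j
    have hcy := cong_iter (hy.cong hk.le D _ hρ) j
    rw [hpow] at hcx hcy
    exact hbA S D hd7 hodd hkd hx hy hcx hcy hm

end

end Pool.Agent.H25.NP
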