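import Pool.Agent.H25.NP.Choose

/-!
# The auxiliary determinants

`EM phi k2 q X Y m s` is an `(m+1) x (m+1)` matrix. Its determinant is divisible by `q^(2m+2)`,
and one of the two determinants (`s = 0, 1`) is nonzero.
-/

set_option autoImplicit false

namespace Pool.Agent.H25.NP

open Matrix

variable {R : Type*} [CommRing R]

/-- The entries of the first row. -/
def ee (φ : ℕ → R) (κ q X Y : R) (D i : ℕ) : R :=
  (∑ j ∈ Finset.Ico i (D + 1), φ (j - i) * q ^ j * κ ^ (D - j)) * Y - q ^ i * κ ^ (D - i) * X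

/-- The matrix. -/
def EM (φ : ℕ → R) (κ q X Y : R) (m s : ℕ) : Matrix (Fin (m + 1)) (Fin (m + 1)) R :=
  Matrix.of fun a c => Fin.cases (ee φ κ q X Y (m + 1) ((c : ℕ) + s))
    (fun a' => φ (m + 1 + ((a' : ℕ) + 1) - ((c : ℕ) + s))) a

lemma EM_zero (φ : ℕ → R) (κ q X Y : R) (m s : ℕ) (c : Fin (m + 1)) :
    EM φ κ q X Y m s 0 c = ee φ κ q X Y (m + 1) ((c : ℕ) + s) := rfl

lemma EM_succ (φ : ℕ → R) (κ q X Y : R) (m s : ℕ) (a : Fin m) (c : Fin (m + 1)) :
    EM φ κ q X Y m s a.succ c = φ (m + 1 + ((a : ℕ) + 1) - ((c : ℕ) + s)) := rfl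

/-- The recurrence of the first row. -/
lemma ee_rec (φ : ℕ → R) (κ q X Y : R) {D i : ℕ} (hi : 1 ≤ i) (hiD : i ≤ D) :
    κ * ee φ κ q X Y D i - q * ee φ κ q X Y D (i - 1) = -(φ (D + 1 - i) * q ^ (D + 1) * Y) := by
  obtain ⟨i, rfl⟩ : ∃ l, i = l + 1 := ⟨i - 1, by omega⟩
  simp only [ee, Nat.add_sub_cancel]
  have h1 : q * ∑ j ∈ Finset.Ico i (D + 1), φ (j - i) * q ^ j * κ ^ (D - j)
      = ∑ j ∈ Finset.Ico (i + 1) (D + 1 + 1), φ (j - (i + 1)) * q ^ j * κ ^ (D + 1 - j) := by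
    rw [← Finset.sum_Ico_add' _ i (D + 1) 1, Finset.mul_sum]
    refine Finset.sum_congr rfl fun j hj => ?_
    rw [Finset.mem_Ico] at hj
    have e1 : j + 1 - (i + 1) = j - i := by omega
    have e2 : D + 1 - (j + 1) = D - j := by omega
    rw [e1, e2, pow_succ]
    ring
  have h2 : κ * ∑ j ∈ Finset.Ico (i + 1) (D + 1), φ (j - (i + 1)) * q ^ j * κ ^ (D - j)
      = ∑ j ∈ Finset.Ico (i + 1) (D + 1), φ (j - (i + 1)) * q ^ j * κ ^ (D + 1 - j) := by
    rw [Finset.mul_sum]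
    refine Finset.sum_congr rfl fun j hj => ?_
    rw [Finset.mem_Ico] at hj
    have e1 : κ ^ (D + 1 - j) = κ ^ (D - j) * κ := by
      rw [← pow_succ]; congr 1; omega
    rw [e1]
    ring
  have e3 : D + 1 - (D + 1) = 0 := by omega
  rw [Finset.sum_Ico_succ_top (a := i + 1) (b := D + 1) (by omega), e3, pow_zero, mul_one] at h1
  have e4 : D - i = (D - (i + 1)) + 1 := by omega
  rw [e4, pow_succ]
  linear_combination Y * h2 - Y * h1

/-- One of the two determinants is nonzero. -/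
theorem EM_ne [IsDomain R] {φ : ℕ → R} {κ q X Y : R} {m : ℕ}
    (h1 : (Toe φ (m + 1) m).det ≠ 0) (h2 : (Toe φ (m + 1) (m + 1)).det ≠ 0)
    (hq : q ≠ 0) (hY : Y ≠ 0) :
    (EM φ κ q X Y m 0).det ≠ 0 ∨ (EM φ κ q X Y m 1).det ≠ 0 := by
  by_contra hcon
  push Not at hcon
  obtain ⟨hc0, hc1⟩ := hcon
  obtain ⟨v, hv0, hv⟩ := Matrix.exists_vecMul_eq_zero_iff.mpr hc0
  obtain ⟨w, hw0, hw⟩ := Matrix.exists_vecMul_eq_zero_iff.mpr hc1
  -- the relations
  have hv' : ∀ i ≤ m, v 0 * ee φ κ q X Y (m + 1) i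
      + ∑ a : Fin m, v a.succ * φ (m + 1 + ((a : ℕ) + 1) - i) = 0 := by
    intro i hi
    have h3 := congrFun hv ⟨i, by omega⟩
    rw [Matrix.vecMul, dotProduct, Fin.sum_univ_succ] at h3
    simpa [EM_zero, EM_succ] using h3
  have hw' : ∀ i, 1 ≤ i → i ≤ m + 1 → w 0 * ee φ κ q X Y (m + 1) i
      + ∑ a : Fin m, w a.succ * φ (m + 1 + ((a : ℕ) + 1) - i) = 0 := by
    intro i hi1 hi
    have h3 := congrFun hw ⟨i - 1, by omega⟩
    rw [Matrix.vecMul, dotProduct, Fin.sum_univ_succ] at h3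
    simp only [EM_zero, EM_succ, Pi.zero_apply] at h3
    have e1 : i - 1 + 1 = i := by omega
    rw [e1] at h3
    exact h3
  -- vectors with first entry zero
  have hkill : ∀ u : Fin (m + 1) → R, u 0 = 0 → (∀ i, 1 ≤ i → i ≤ m →
      u 0 * ee φ κ q X Y (m + 1) i
      + ∑ a : Fin m, u a.succ * φ (m + 1 + ((a : ℕ) + 1) - i) = 0) → u = 0 := by
    intro u hu0 hu
    have h3 : (fun a : Fin m => u a.succ) ᵥ* (Toe φ (m + 1) m) = 0 := by
      ext b
      have h4 := hu ((b : ℕ) + 1) (by omega) (by have := b.2; omega)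
      rw [hu0, zero_mul, zero_add] at h4
      rw [Matrix.vecMul, dotProduct, Pi.zero_apply, ← h4]
      refine Finset.sum_congr rfl fun a _ => ?_
      rw [Toe, Matrix.of_apply]
      congr 2
      omega
    have h4 := Matrix.eq_zero_of_vecMul_eq_zero h1 h3
    funext a
    refine Fin.cases hu0 (fun a' => ?_) a
    exact congrFun h4 a'
  have hv00 : v 0 ≠ 0 := by
    intro h3
    exact hv0 (hkill v h3 fun i _ hi => hv' i hi)
  have hw00 : w 0 ≠ 0 := by
    intro h3
    exact hw0 (hkill w h3 fun i hi1 hi => hw' i hi1 (by omega))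
  have hprop : (fun a => w 0 * v a - v 0 * w a) = 0 := by
    refine hkill _ (by ring) fun i hi1 hi => ?_
    have h3 := hv' i hi
    have h4 := hw' i hi1 (by omega)
    have h5 : ∑ a : Fin m, (w 0 * v a.succ - v 0 * w a.succ) * φ (m + 1 + ((a : ℕ) + 1) - i)
        = w 0 * (∑ a : Fin m, v a.succ * φ (m + 1 + ((a : ℕ) + 1) - i))
          - v 0 * ∑ a : Fin m, w a.succ * φ (m + 1 + ((a : ℕ) + 1) - i) := by
      rw [Finset.mul_sum, Finset.mul_sum, ← Finset.sum_sub_distrib]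
      exact Finset.sum_congr rfl fun a _ => by ring
    rw [h5]
    linear_combination w 0 * h3 - v 0 * h4
  -- the common vector
  have hu' : ∀ i ≤ m + 1, w 0 * v 0 * ee φ κ q X Y (m + 1) i
      + ∑ a : Fin m, (w 0 * v a.succ) * φ (m + 1 + ((a : ℕ) + 1) - i) = 0 := by
    intro i hi
    rcases Nat.lt_or_ge m i with h3 | h3
    · have h4 := hw' i (by omega) hi
      have h5 : ∑ a : Fin m, (w 0 * v a.succ) * φ (m + 1 + ((a : ℕ) + 1) - i)
          = v 0 * ∑ a : Fin m, w a.succ * φ (m + 1 + ((a : ℕ) + 1) - i) := by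
        rw [Finset.mul_sum]
        refine Finset.sum_congr rfl fun a _ => ?_
        have h6 := congrFun hprop a.succ
        simp only [Pi.zero_apply] at h6
        linear_combination φ (m + 1 + ((a : ℕ) + 1) - i) * h6
      rw [h5]
      linear_combination v 0 * h4
    · have h4 := hv' i h3
      have h5 : ∑ a : Fin m, (w 0 * v a.succ) * φ (m + 1 + ((a : ℕ) + 1) - i)
          = w 0 * ∑ a : Fin m, v a.succ * φ (m + 1 + ((a : ℕ) + 1) - i) := by
        rw [Finset.mul_sum]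
        exact Finset.sum_congr rfl fun a _ => by ring
      rw [h5]
      linear_combination w 0 * h4
  -- the sequence `U`
  set U : ℕ → R := fun a => if a = 0 then w 0 * v 0 * q ^ (m + 1) * Y
    else if h : a - 1 < m then w 0 * v (Fin.succ ⟨a - 1, h⟩) else 0 with hU
  have hU0 : U 0 = w 0 * v 0 * q ^ (m + 1) * Y := by rw [hU]; simp
  have hUs : ∀ a : Fin m, U ((a : ℕ) + 1) = w 0 * v a.succ := by
    intro a
    rw [hU]
    simp
  have hUm : U (m + 1) = 0 := by
    rw [hU]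
    simp
  have hz : (fun a : Fin (m + 1) => κ * U ((a : ℕ) + 1) - q * U (a : ℕ))
      ᵥ* (Toe φ (m + 1) (m + 1)) = 0 := by
    ext b
    rw [Matrix.vecMul, dotProduct, Pi.zero_apply]
    have hb := b.2
    have h3 : ∀ i ≤ m + 1, ∑ a : Fin m, (w 0 * v a.succ) * φ (m + 1 + ((a : ℕ) + 1) - i)
        = ∑ a ∈ Finset.range m, U (a + 1) * φ (m + 1 + (a + 1) - i) := by
      intro i _
      rw [← Fin.sum_univ_eq_sum_range (fun a => U (a + 1) * φ (m + 1 + (a + 1) - i))]
      exact Finset.sum_congr rfl fun a _ => by rw [hUs]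
    have h4 := hu' ((b : ℕ) + 1) (by omega)
    have h5 := hu' (b : ℕ) (by omega)
    rw [h3 _ (by omega)] at h4 h5
    have h6 := ee_rec φ κ q X Y (D := m + 1) (i := (b : ℕ) + 1) (by omega) (by omega)
    rw [Nat.add_sub_cancel] at h6
    have h7 : ∑ a : Fin (m + 1), (κ * U ((a : ℕ) + 1) - q * U (a : ℕ))
        * Toe φ (m + 1) (m + 1) a b
        = ∑ a ∈ Finset.range (m + 1), (κ * U (a + 1) - q * U a) * φ (m + 1 + a - b) := by
      rw [← Fin.sum_univ_eq_sum_range (fun a => (κ * U (a + 1) - q * U a) * φ (m + 1 + a - b))]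
      rfl
    have h8 : ∑ a ∈ Finset.range (m + 1), (κ * U (a + 1) - q * U a) * φ (m + 1 + a - b)
        = κ * ∑ a ∈ Finset.range (m + 1), U (a + 1) * φ (m + 1 + a - b)
          - q * ∑ a ∈ Finset.range (m + 1), U a * φ (m + 1 + a - b) := by
      rw [Finset.mul_sum, Finset.mul_sum, ← Finset.sum_sub_distrib]
      exact Finset.sum_congr rfl fun a _ => by ring
    have h9 : ∑ a ∈ Finset.range (m + 1), U (a + 1) * φ (m + 1 + a - b)
        = ∑ a ∈ Finset.range m, U (a + 1) * φ (m + 1 + (a + 1) - ((b : ℕ) + 1)) := by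
      rw [Finset.sum_range_succ, hUm, zero_mul, add_zero]
      refine Finset.sum_congr rfl fun a _ => ?_
      congr 2
      omega
    have h10 : ∑ a ∈ Finset.range (m + 1), U a * φ (m + 1 + a - b)
        = ∑ a ∈ Finset.range m, U (a + 1) * φ (m + 1 + (a + 1) - (b : ℕ))
          + U 0 * φ (m + 1 + 1 - ((b : ℕ) + 1)) := by
      rw [Finset.sum_range_succ']
      have e1 : m + 1 + 0 - (b : ℕ) = m + 1 + 1 - ((b : ℕ) + 1) := by omega
      rw [e1]
    rw [h7, h8, h9, h10, hU0]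
    linear_combination κ * h4 - q * h5 - w 0 * v 0 * h6
  have hz' := Matrix.eq_zero_of_vecMul_eq_zero h2 hz
  have hstep : ∀ a ≤ m, q * U a = κ * U (a + 1) := by
    intro a ha
    have h3 := congrFun hz' ⟨a, by omega⟩
    simp only [Pi.zero_apply] at h3
    linear_combination -h3
  have hall : ∀ l ≤ m + 1, U (m + 1 - l) = 0 := by
    intro l
    induction l with
    | zero => intro _; rw [Nat.sub_zero, hUm]
    | succ l ih =>
      intro hl
      have h3 := hstep (m + 1 - (l + 1)) (by omega)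
      have e1 : m + 1 - (l + 1) + 1 = m + 1 - l := by omega
      rw [e1, ih (by omega), mul_zero] at h3
      exact (mul_eq_zero.mp h3).resolve_left hq
  have h3 := hall (m + 1) (le_refl _)
  rw [Nat.sub_self, hU0] at h3
  exact (mul_ne_zero (mul_ne_zero (mul_ne_zero hw00 hv00) (pow_ne_zero _ hq)) hY) h3

end Pool.Agent.H25.NP
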