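import Pool.Agent.H25.NP.Mat

/-!
# The auxiliary determinants: divisibility, membership in an ideal, size
-/

set_option autoImplicit false

namespace Pool.Agent.H25.NP

open Matrix

section alg

variable {R : Type*} [CommRing R]

/-- The first row is a combination of the other rows modulo `q^(2m+2)`. -/
lemma ee_mod {φ : ℕ → R} {κ q X Y : R} {m : ℕ}
    (h : q ^ (2 * m + 2) ∣ κ ^ (2 * m + 1) * X
      - (∑ j ∈ Finset.range (2 * m + 2), φ j * κ ^ (2 * m + 1 - j) * q ^ j) * Y)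
    {i : ℕ} (hi : i ≤ m + 1) :
    q ^ (2 * m + 2) ∣ κ ^ (2 * m + 1) * ee φ κ q X Y (m + 1) i
      + ∑ a ∈ Finset.range m, (κ ^ (2 * m - a) * q ^ (m + 2 + a) * Y)
        * φ (m + 1 + (a + 1) - i) := by
  obtain ⟨Z, hZ⟩ := h
  -- the sum times `q^i κ^(D-i)`
  have h1 : q ^ i * κ ^ (m + 1 - i)
      * ∑ j ∈ Finset.range (2 * m + 2), φ j * κ ^ (2 * m + 1 - j) * q ^ j
      = ∑ j ∈ Finset.Ico i (2 * m + 2), φ (j - i) * κ ^ (3 * m + 2 - j) * q ^ j
        + q ^ (2 * m + 2) * ∑ j ∈ Finset.Ico (2 * m + 2 - i) (2 * m + 2),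
          φ j * κ ^ (2 * m + 1 - j + (m + 1 - i)) * q ^ (i + j - (2 * m + 2)) := by
    rw [Finset.range_eq_Ico, ← Finset.sum_Ico_consecutive _ (Nat.zero_le (2 * m + 2 - i))
      (by omega : 2 * m + 2 - i ≤ 2 * m + 2), mul_add]
    congr 1
    · have h2 : Finset.Ico i (2 * m + 2) = Finset.Ico (0 + i) (2 * m + 2 - i + i) := by
        congr 1 <;> omega
      rw [h2, ← Finset.sum_Ico_add' _ 0 (2 * m + 2 - i) i, Finset.mul_sum]
      refine Finset.sum_congr rfl fun j hj => ?_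
      rw [Finset.mem_Ico] at hj
      have e1 : j + i - i = j := by omega
      have e2 : 3 * m + 2 - (j + i) = (2 * m + 1 - j) + (m + 1 - i) := by omega
      rw [e1, e2, pow_add, pow_add]
      ring
    · rw [Finset.mul_sum, Finset.mul_sum]
      refine Finset.sum_congr rfl fun j hj => ?_
      rw [Finset.mem_Ico] at hj
      have e1 : q ^ i * q ^ j = q ^ (2 * m + 2) * q ^ (i + j - (2 * m + 2)) := by
        rw [← pow_add, ← pow_add]; congr 1; omega
      rw [pow_add]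
      linear_combination φ j * κ ^ (2 * m + 1 - j) * κ ^ (m + 1 - i) * e1
  have h2 : ∑ j ∈ Finset.Ico i (2 * m + 2), φ (j - i) * κ ^ (3 * m + 2 - j) * q ^ j
      = κ ^ (2 * m + 1) * (∑ j ∈ Finset.Ico i (m + 1 + 1), φ (j - i) * q ^ j * κ ^ (m + 1 - j))
        + ∑ a ∈ Finset.range m, (κ ^ (2 * m - a) * q ^ (m + 2 + a)) * φ (m + 1 + (a + 1) - i) := by
    rw [← Finset.sum_Ico_consecutive _ (by omega : i ≤ m + 1 + 1)
      (by omega : m + 1 + 1 ≤ 2 * m + 2)]
    congr 1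
    · rw [Finset.mul_sum]
      refine Finset.sum_congr rfl fun j hj => ?_
      rw [Finset.mem_Ico] at hj
      have e1 : 3 * m + 2 - j = (2 * m + 1) + (m + 1 - j) := by omega
      rw [e1, pow_add]
      ring
    · rw [Finset.sum_Ico_eq_sum_range]
      have e0 : 2 * m + 2 - (m + 1 + 1) = m := by omega
      rw [e0]
      refine Finset.sum_congr rfl fun a ha => ?_
      rw [Finset.mem_range] at ha
      have e1 : m + 1 + 1 + a - i = m + 1 + (a + 1) - i := by omega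
      have e2 : 3 * m + 2 - (m + 1 + 1 + a) = 2 * m - a := by omega
      have e3 : m + 1 + 1 + a = m + 2 + a := by omega
      rw [e1, e2, e3]
      ring
  rw [h2] at h1
  have h3 : ∑ a ∈ Finset.range m, (κ ^ (2 * m - a) * q ^ (m + 2 + a) * Y)
      * φ (m + 1 + (a + 1) - i)
      = Y * ∑ a ∈ Finset.range m, (κ ^ (2 * m - a) * q ^ (m + 2 + a))
        * φ (m + 1 + (a + 1) - i) := by
    rw [Finset.mul_sum]
    exact Finset.sum_congr rfl fun a _ => by ring
  rw [h3, ee]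
  refine ⟨-(q ^ i * κ ^ (m + 1 - i) * Z) - Y * ∑ j ∈ Finset.Ico (2 * m + 2 - i) (2 * m + 2),
          φ j * κ ^ (2 * m + 1 - j + (m + 1 - i)) * q ^ (i + j - (2 * m + 2)), ?_⟩
  linear_combination (-(q ^ i * κ ^ (m + 1 - i))) * hZ - Y * h1

/-- The determinants are divisible by `q^(2m+2)`. -/
theorem EM_dvd {φ : ℕ → R} {κ q X Y : R} {m s : ℕ} (hs : s ≤ 1)
    (h : q ^ (2 * m + 2) ∣ κ ^ (2 * m + 1) * X
      - (∑ j ∈ Finset.range (2 * m + 2), φ j * κ ^ (2 * m + 1 - j) * q ^ j) * Y)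
    (hcop : IsCoprime q κ) : q ^ (2 * m + 2) ∣ (EM φ κ q X Y m s).det := by
  set M := EM φ κ q X Y m s with hM
  set c : Fin (m + 1) → R := fun a => Fin.cases (κ ^ (2 * m + 1))
    (fun a' : Fin m => κ ^ (2 * m - (a' : ℕ)) * q ^ (m + 2 + (a' : ℕ)) * Y) a with hc
  have h1 := Matrix.det_updateRow_sum M 0 c
  have h2 : ∀ b : Fin (m + 1), q ^ (2 * m + 2) ∣ (∑ k, c k • M k) b := by
    intro b
    have h3 := ee_mod h (i := (b : ℕ) + s) (by have := b.2; omega)
    have h4 : (∑ k, c k • M k) b = κ ^ (2 * m + 1) * ee φ κ q X Y (m + 1) ((b : ℕ) + s)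
      + ∑ a ∈ Finset.range m, (κ ^ (2 * m - a) * q ^ (m + 2 + a) * Y)
        * φ (m + 1 + (a + 1) - ((b : ℕ) + s)) := by
      rw [Finset.sum_apply, Fin.sum_univ_succ, ← Fin.sum_univ_eq_sum_range
        (fun a => (κ ^ (2 * m - a) * q ^ (m + 2 + a) * Y)
        * φ (m + 1 + (a + 1) - ((b : ℕ) + s)))]
      rfl
    rw [h4]; exact h3
  choose v hv using h2
  have h3 : (∑ k, c k • M k) = q ^ (2 * m + 2) • v := by
    funext b
    rw [hv b]; rfl
  rw [h3, Matrix.det_updateRow_smul] at h1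
  have h4 : q ^ (2 * m + 2) ∣ κ ^ (2 * m + 1) * M.det := by
    have h5 : c 0 = κ ^ (2 * m + 1) := rfl
    rw [h5, smul_eq_mul] at h1
    exact ⟨_, h1.symm⟩
  exact (hcop.pow (m := 2 * m + 2) (n := 2 * m + 1)).dvd_of_dvd_mul_left h4

/-- Membership in an ideal. -/
theorem EM_mem {φ : ℕ → R} {κ q X Y : R} {m s : ℕ} (I : Ideal R) (hX : X ∈ I) (hY : Y ∈ I) :
    (EM φ κ q X Y m s).det ∈ I := by
  rw [Matrix.det_apply]
  refine Ideal.sum_mem _ fun σ _ => ?_
  have h1 : ∏ i, EM φ κ q X Y m s (σ i) i ∈ I := by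
    rw [← Finset.mul_prod_erase Finset.univ _ (Finset.mem_univ (σ⁻¹ 0))]
    refine Ideal.mul_mem_right _ _ ?_
    have h2 : σ (σ⁻¹ 0) = 0 := by simp
    rw [h2, EM_zero, ee]
    exact Ideal.sub_mem _ (Ideal.mul_mem_left _ _ hY) (Ideal.mul_mem_left _ _ hX)
  rw [Units.smul_def, zsmul_eq_mul]
  exact Ideal.mul_mem_left _ _ h1

end alg

section size

/-- Leibniz bound with row and column weights. -/
lemma det_norm_le {m : ℕ} (M : Matrix (Fin m) (Fin m) ℂ) (x y : Fin m → ℝ)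
    (h : ∀ a b, ‖M a b‖ ≤ x a * y b) :
    ‖M.det‖ ≤ (m.factorial : ℝ) * ((∏ a, x a) * ∏ b, y b) := by
  rw [Matrix.det_apply]
  refine (norm_sum_le _ _).trans ?_
  have h1 : ∀ σ : Equiv.Perm (Fin m), ‖Equiv.Perm.sign σ • ∏ i, M (σ i) i‖
      ≤ (∏ a, x a) * ∏ b, y b := by
    intro σ
    have h2 : ‖Equiv.Perm.sign σ • ∏ i, M (σ i) i‖ = ∏ i, ‖M (σ i) i‖ := by
      rcases Int.units_eq_one_or (Equiv.Perm.sign σ) with h3 | h3
      · rw [h3, one_smul, norm_prod]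
      · rw [h3, Units.neg_smul, one_smul, norm_neg, norm_prod]
    rw [h2, ← Equiv.prod_comp σ x, ← Finset.prod_mul_distrib]
    exact Finset.prod_le_prod (fun i _ => norm_nonneg _) fun i _ => h _ _
  refine (Finset.sum_le_sum fun σ _ => h1 σ).trans ?_
  rw [Finset.sum_const, Finset.card_univ, Fintype.card_perm, Fintype.card_fin, nsmul_eq_mul]

end size

end Pool.Agent.H25.NP
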