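import Pool.Agent.H25.NP.Est

/-!
# The power sums: size, and non-nilpotency modulo `k`
-/

set_option autoImplicit false

namespace Pool.Agent.H25.NP

open NumberField Polynomial Pool.Agent.H26.NL Pool.Agent.H25.NW

noncomputable section

variable {d : ℕ} [hd : Fact d.Prime] {K : Type} [Field K] [NumberField K]
  [IsCyclotomicExtension {d} ℚ K]

lemma d_odd (h7 : 7 ≤ d) : d % 2 = 1 := by
  rcases hd.out.eq_two_or_odd with h | h
  · omega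
  · exact h

/-- The size of `A12 \ A22`. -/
lemma card_diff (h7 : 7 ≤ d) : (AA d 1 2 \ AA d 2 2).card ≤ d / 3 - d / 4 := by
  have hodd := d_odd (d := d) h7
  have h1 : (AA d 1 2 \ AA d 2 2).card ≤ (Finset.Ioc (d / 4) (d / 3)).card := by
    refine Finset.card_le_card_of_injOn (fun t => (t : ZMod d).val) ?_ ?_
    · intro t ht
      rw [Finset.mem_coe, Finset.mem_sdiff] at ht
      have h2 := diff_mem_EE h7 t ht.1 ht.2
      rw [mem_EE] at h2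
      have h3 : d / 4 < (t : ZMod d).val ∧ (t : ZMod d).val ≤ d / 3 := by omega
      exact Finset.mem_coe.mpr (Finset.mem_Ioc.mpr h3)
    · intro s _ t _ hst
      exact Units.ext (ZMod.val_injective d hst)
  rw [Nat.card_Ioc] at h1
  exact h1

lemma card_diff' (h7 : 7 ≤ d) : (AA d 2 2 \ AA d 1 2).card ≤ d / 3 - d / 4 := by
  have hnd : ∀ c : ℕ, 1 ≤ c → c ≤ 4 → ¬ d ∣ c := by
    intro c h1 h2 h3
    have := Nat.le_of_dvd h1 h3
    omega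
  have hA12 := AA_neg (d := d) (a := 1) (b := 2) (hnd _ (by omega) (by omega))
    (hnd _ (by omega) (by omega)) (hnd _ (by omega) (by omega))
  have hA22 := AA_neg (d := d) (a := 2) (b := 2) (hnd _ (by omega) (by omega))
    (hnd _ (by omega) (by omega)) (hnd _ (by omega) (by omega))
  have h1 : (AA d 2 2 \ AA d 1 2).card ≤ (AA d 1 2 \ AA d 2 2).card := by
    refine Finset.card_le_card_of_injOn (fun t => -t) ?_ ?_
    · intro t ht
      rw [Finset.mem_coe, Finset.mem_sdiff] at ht ⊢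
      exact ⟨(hA12 t).mpr ht.2, fun h => (hA22 t).mp h ht.1⟩
    · intro s _ t _ hst
      exact neg_injective hst
  exact h1.trans (card_diff h7)

/-- The basic sums. -/
def UU (d : ℕ) [Fact d.Prime] (K : Type) [Field K] [NumberField K]
    [IsCyclotomicExtension {d} ℚ K] (j : ℕ) : 𝓞 K :=
  ∑ t ∈ AA d 1 2, Zt d K t ^ j - ∑ t ∈ AA d 2 2, Zt d K t ^ j

lemma UU_norm (h7 : 7 ≤ d) (j : ℕ) (f : 𝓞 K →+* ℂ) :
    ‖f (UU d K j)‖ ≤ 2 * ((d / 3 - d / 4 : ℕ) : ℝ) := by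
  have h0 : ∀ t : (ZMod d)ˣ, ‖f (Zt d K t ^ j)‖ = 1 := by
    intro t
    have h1 : f (Zt d K t) ^ d = 1 := by rw [← map_pow, Zt_pow, map_one]
    rw [map_pow, norm_pow, Complex.norm_eq_one_of_pow_eq_one h1 (NeZero.ne d), one_pow]
  rw [UU, ← Finset.sum_sdiff_sub_sum_sdiff, map_sub, map_sum, map_sum]
  refine (norm_sub_le _ _).trans ?_
  have h1 : ∀ s : Finset (ZMod d)ˣ, ‖∑ t ∈ s, f (Zt d K t ^ j)‖ ≤ s.card := by
    intro s
    refine (norm_sum_le _ _).trans ?_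
    rw [Finset.sum_congr rfl fun t _ => h0 t, Finset.sum_const, nsmul_eq_mul, mul_one]
  have h2 : ((AA d 1 2 \ AA d 2 2).card : ℝ) ≤ ((d / 3 - d / 4 : ℕ) : ℝ) := by
    exact_mod_cast card_diff (d := d) h7
  have h3 : ((AA d 2 2 \ AA d 1 2).card : ℝ) ≤ ((d / 3 - d / 4 : ℕ) : ℝ) := by
    exact_mod_cast card_diff' (d := d) h7
  linarith [h1 (AA d 1 2 \ AA d 2 2), h1 (AA d 2 2 \ AA d 1 2)]

/-- The coefficients of `UU 1`. -/
def wc (d : ℕ) [Fact d.Prime] (b : (ZMod d)ˣ) : ℤ :=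
  (if b⁻¹ ∈ AA d 1 2 then 1 else 0) - (if b⁻¹ ∈ AA d 2 2 then 1 else 0)

lemma sum_A (A : Finset (ZMod d)ˣ) : ∑ t ∈ A, Zt d K t
    = ∑ b : (ZMod d)ˣ, ((if b⁻¹ ∈ A then 1 else 0 : ℤ) : 𝓞 K) * zt d K ^ (b : ZMod d).val := by
  have h1 : ∑ t ∈ A, Zt d K t = ∑ t : (ZMod d)ˣ, if t ∈ A then Zt d K t else 0 := by
    rw [Finset.sum_ite_mem, Finset.univ_inter]
  rw [h1, ← Equiv.sum_comp (Equiv.inv (ZMod d)ˣ)]
  refine Finset.sum_congr rfl fun b _ => ?_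
  rw [Equiv.inv_apply]
  split_ifs with h
  · rw [Zt, inv_inv]; simp
  · simp

lemma UU_one : UU d K 1 = ∑ b : (ZMod d)ˣ, (wc d b : 𝓞 K) * zt d K ^ (b : ZMod d).val := by
  rw [UU]
  simp only [pow_one]
  rw [sum_A, sum_A, ← Finset.sum_sub_distrib]
  refine Finset.sum_congr rfl fun b _ => ?_
  rw [wc]
  push_cast
  ring

lemma sg_sum (ρ : (ZMod d)ˣ) (c : (ZMod d)ˣ → ℤ) :
    sg ρ (∑ b : (ZMod d)ˣ, (c b : 𝓞 K) * zt d K ^ (b : ZMod d).val)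
      = ∑ b : (ZMod d)ˣ, (c (ρ⁻¹ * b) : 𝓞 K) * zt d K ^ (b : ZMod d).val := by
  rw [map_sum]
  conv_rhs => rw [← Equiv.sum_comp (Equiv.mulLeft ρ)]
  refine Finset.sum_congr rfl fun x _ => ?_
  rw [Equiv.coe_mulLeft, map_mul, map_intCast, map_pow, sg_zt, inv_mul_cancel_left,
    ← pow_val_mul (zt_spec d K).pow_eq_one, ← Units.val_mul]

lemma wc_le (b : (ZMod d)ˣ) : |wc d b| ≤ 1 := by
  rw [wc]
  split_ifs <;> simp

/-- Non-nilpotency. -/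
lemma not_nil {k : ℕ} (hk : 1 < k) (hodd : Odd k) (hcop : Nat.Coprime k d)
    (c : (ZMod d)ˣ → ℤ) (hc : ∀ b, |c b| ≤ 2) (hne : ∃ b, c b ≠ 0) (M : ℕ) :
    ¬ (k : 𝓞 K) ∣ (∑ b : (ZMod d)ˣ, (c b : 𝓞 K) * zt d K ^ (b : ZMod d).val) ^ M := by
  intro h
  set C := ∑ b : (ZMod d)ˣ, (c b : 𝓞 K) * zt d K ^ (b : ZMod d).val with hC
  obtain ⟨l, hl, hlk⟩ := Nat.exists_prime_and_dvd (n := k) (by omega)
  have hl2 : l ≠ 2 := by
    rintro rfl
    exact (Nat.not_even_iff_odd.mpr hodd) (even_iff_two_dvd.mpr hlk)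
  have hl3 : 3 ≤ l := by have := hl.two_le; omega
  have hld : l.Coprime d := Nat.Coprime.coprime_dvd_left hlk hcop
  have hlk' : (l : 𝓞 K) ∣ (k : 𝓞 K) := by
    obtain ⟨u, hu⟩ := hlk
    exact ⟨(u : 𝓞 K), by rw [hu]; push_cast; ring⟩
  have h1 : (l : 𝓞 K) ∣ C ^ l ^ M := by
    refine (hlk'.trans h).trans (pow_dvd_pow _ ?_)
    exact (Nat.lt_pow_self hl.one_lt).le
  set lam : (ZMod d)ˣ := ZMod.unitOfCoprime l hld with hlam
  have hlam' : (lam : ZMod d) = (l : ZMod d) := ZMod.coe_unitOfCoprime l hld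
  have h2 := frob_iter l hl lam hlam' C M
  have h3 : (l : 𝓞 K) ∣ sg (lam ^ M) C := by
    have := dvd_sub h1 h2
    simpa using this
  have h4 : (l : 𝓞 K) ∣ C := by
    have := map_dvd (sg (K := K) (lam ^ M)⁻¹) h3
    rwa [map_natCast, ← sg_mul, inv_mul_cancel, sg_one] at this
  obtain ⟨b, hb⟩ := hne
  apply hb
  have h5 : ((l : ℤ) : 𝓞 K) ∣ ∑ b : (ZMod d)ˣ, (c b : 𝓞 K) * zt d K ^ (b : ZMod d).val := by
    rw [← hC]; exact_mod_cast h4
  have h6 := coeff_all c h5 b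
  exact Int.eq_zero_of_abs_lt_dvd h6 (by have := hc b; omega)

/-- The coefficients of the twisted difference do not all vanish. -/
lemma wc_twist (h7 : 7 ≤ d) {ρ : (ZMod d)ˣ} (hρ : ρ ≠ 1) : ∃ b, wc d b - wc d (ρ⁻¹ * b) ≠ 0 := by
  by_contra hcon
  push Not at hcon
  apply hρ
  refine EE_stable h7 ρ fun t ht => ?_
  obtain ⟨h1, h2⟩ := EE_diff h7 t ht
  have h3 := hcon t⁻¹
  have h4 : (ρ⁻¹ * t⁻¹)⁻¹ = t * ρ := by rw [mul_inv, inv_inv, inv_inv, mul_comm]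
  rw [wc, wc, inv_inv, if_pos h1, if_neg h2, h4] at h3
  have h5 : t * ρ ∈ AA d 1 2 ∧ t * ρ ∉ AA d 2 2 := by
    by_cases h6 : t * ρ ∈ AA d 1 2
    · by_cases h8 : t * ρ ∈ AA d 2 2
      · rw [if_pos h6, if_pos h8] at h3; norm_num at h3
      · exact ⟨h6, h8⟩
    · by_cases h8 : t * ρ ∈ AA d 2 2
      · rw [if_neg h6, if_pos h8] at h3; norm_num at h3
      · rw [if_neg h6, if_neg h8] at h3; norm_num at h3
  exact diff_mem_EE h7 _ h5.1 h5.2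

lemma wc_ne (h7 : 7 ≤ d) : ∃ b, wc d b ≠ 0 := by
  obtain ⟨t, h1, h2⟩ := exists_diff (d := d) h7
  refine ⟨t⁻¹, ?_⟩
  rw [wc, inv_inv, if_pos h1, if_neg h2]
  norm_num

end

end Pool.Agent.H25.NP
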