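import Mathlib

/-!
# Truncated `k`-th roots of power series `1 + k^2 S`, and their coefficients

Over any commutative ring, `1 + k^2 S` (with `S` without constant term) has, modulo any power of
`X`, a `k`-th root `1 + k W`.
-/

set_option autoImplicit false

namespace Pool.Agent.H25.NP

open Polynomial

/-- `(1 + k Y)^k = 1 + k^2 (Y + Y^2 Q(Y))`. -/
lemma exists_Q (k : ℕ) : ∃ Q : ℤ[X], (1 + (k : ℤ[X]) * X) ^ k
    = 1 + (k : ℤ[X]) ^ 2 * (X + X ^ 2 * Q) := by
  obtain ⟨c, hc⟩ := Polynomial.binomExpansion ((X : ℤ[X][X]) ^ k) 1 ((k : ℤ[X]) * X)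
  rw [eval_pow, eval_X, eval_pow, eval_X, one_pow, derivative_X_pow, eval_mul, eval_pow, eval_X,
    one_pow, mul_one] at hc
  refine ⟨c, ?_⟩
  rw [hc]
  have : (C ((k : ℕ) : ℤ[X]) : ℤ[X][X]).eval 1 = (k : ℤ[X]) := by simp
  rw [this]
  ring

variable {R : Type*} [CommRing R]

/-- Truncated root. -/
lemma exists_root (k : ℕ) (S : PowerSeries R) (hS : PowerSeries.X ∣ S) (n : ℕ) :
    ∃ W : PowerSeries R, PowerSeries.X ∣ W ∧
      PowerSeries.X ^ (n + 1) ∣ (1 + (k : PowerSeries R) * W) ^ k
        - (1 + (k : PowerSeries R) ^ 2 * S) := by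
  obtain ⟨Q, hQ⟩ := exists_Q k
  have hev : ∀ W : PowerSeries R, (1 + (k : PowerSeries R) * W) ^ k
      = 1 + (k : PowerSeries R) ^ 2 * (W + W ^ 2 * aeval W Q) := by
    intro W
    have := congrArg (aeval W) hQ
    simpa using this
  have key : ∃ W : PowerSeries R, PowerSeries.X ∣ W ∧
      PowerSeries.X ^ (n + 1) ∣ (W + W ^ 2 * aeval W Q) - S := by
    induction n with
    | zero =>
      refine ⟨0, dvd_zero _, ?_⟩
      simpa using hS
    | succ n ih =>
      obtain ⟨W, hW, E, hE⟩ := ih
      set δ : PowerSeries R := PowerSeries.X ^ (n + 1) * E with hδ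
      have hXδ : PowerSeries.X ∣ δ := by
        rw [hδ, pow_succ', mul_assoc]
        exact dvd_mul_right _ _
      have hW' : PowerSeries.X ∣ W - δ := dvd_sub hW hXδ
      refine ⟨W - δ, hW', ?_⟩
      have h1 : δ ∣ aeval W Q - aeval (W - δ) Q := by
        have h2 := Polynomial.sub_dvd_eval_sub W (W - δ) (Q.map (Int.castRingHom (PowerSeries R)))
        rw [eval_map, eval_map] at h2
        have h3 : ∀ V : PowerSeries R, eval₂ (Int.castRingHom (PowerSeries R)) V Q = aeval V Q := by
          intro V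
          rw [aeval_def]
          congr 1
          exact RingHom.ext_int _ _
        rw [h3, h3] at h2
        simpa using h2
      obtain ⟨u, hu⟩ := h1
      obtain ⟨w, hw⟩ := hW
      obtain ⟨v, hv⟩ := hXδ
      have h2 : (W - δ + (W - δ) ^ 2 * aeval (W - δ) Q) - S
          = -δ * (W * (aeval W Q)) - (W - δ) * (δ * aeval W Q) - (W - δ) ^ 2 * (δ * u) := by
        have h3 : aeval (W - δ) Q = aeval W Q - δ * u := by linear_combination -hu
        rw [h3]
        linear_combination hE
      rw [h2]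
      have h4 : ∀ z : PowerSeries R, PowerSeries.X ^ (n + 1 + 1) ∣ δ * (PowerSeries.X * z) := by
        intro z
        rw [hδ, pow_succ PowerSeries.X (n + 1)]
        exact ⟨E * z, by ring⟩
      have h5 : W - δ = PowerSeries.X * (w - v) := by rw [hw, hv]; ring
      refine dvd_sub (dvd_sub ?_ ?_) ?_
      · have : -δ * (W * (aeval W Q)) = δ * (PowerSeries.X * (-(w * aeval W Q))) := by
          nth_rewrite 1 [hw]; ring
        rw [this]; exact h4 _
      · have : (W - δ) * (δ * aeval W Q) = δ * (PowerSeries.X * ((w - v) * aeval W Q)) := by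
          nth_rewrite 1 [h5]; ring
        rw [this]; exact h4 _
      · have : (W - δ) ^ 2 * (δ * u) = δ * (PowerSeries.X * ((w - v) * (W - δ) * u)) := by
          rw [sq]; nth_rewrite 1 [h5]; ring
        rw [this]; exact h4 _
  obtain ⟨W, hW, hW2⟩ := key
  refine ⟨W, hW, ?_⟩
  rw [hev]
  have : 1 + (k : PowerSeries R) ^ 2 * (W + W ^ 2 * aeval W Q)
      - (1 + (k : PowerSeries R) ^ 2 * S)
      = (k : PowerSeries R) ^ 2 * ((W + W ^ 2 * aeval W Q) - S) := by ring
  rw [this]
  exact dvd_mul_of_dvd_right hW2 _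

/-- The product of the `1 - k^2 a_i X`. -/
noncomputable def PR {ι : Type*} (k : ℕ) (a : ι → R) (s : Finset ι) : PowerSeries R :=
  ∏ i ∈ s, (1 - PowerSeries.C ((k : R) ^ 2 * a i) * PowerSeries.X)

/-- `PR = 1` modulo `k^2 X`. -/
lemma PR_sub_one {ι : Type*} (k : ℕ) (a : ι → R) (s : Finset ι) :
    (k : PowerSeries R) ^ 2 * PowerSeries.X ∣ PR k a s - 1 := by
  classical
  rw [PR]
  induction s using Finset.induction_on with
  | empty => simp
  | insert x s hx ih =>
    rw [Finset.prod_insert hx]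
    have h1 : (1 - PowerSeries.C ((k : R) ^ 2 * a x) * PowerSeries.X)
        * ∏ i ∈ s, (1 - PowerSeries.C ((k : R) ^ 2 * a i) * PowerSeries.X) - 1
        = (∏ i ∈ s, (1 - PowerSeries.C ((k : R) ^ 2 * a i) * PowerSeries.X) - 1)
          - ((k : PowerSeries R) ^ 2 * PowerSeries.X) * (PowerSeries.C (a x)
            * ∏ i ∈ s, (1 - PowerSeries.C ((k : R) ^ 2 * a i) * PowerSeries.X)) := by
      rw [map_mul, map_pow, map_natCast]
      ring
    rw [h1]
    exact dvd_sub ih (dvd_mul_right _ _)

lemma constCoeff_PR {ι : Type*} (k : ℕ) (a : ι → R) (s : Finset ι) :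
    PowerSeries.constantCoeff (PR k a s) = 1 := by
  rw [PR, map_prod]
  apply Finset.prod_eq_one
  intro i _
  simp

lemma isUnit_PR {ι : Type*} (k : ℕ) (a : ι → R) (s : Finset ι) : IsUnit (PR k a s) := by
  rw [PowerSeries.isUnit_iff_constantCoeff, constCoeff_PR]
  exact isUnit_one

/-- The integral truncated root of `PR s1 / PR s2`. -/
lemma exists_G {ι : Type*} (k : ℕ) (a : ι → R) (s1 s2 : Finset ι) (n : ℕ) :
    ∃ G : PowerSeries R, PowerSeries.constantCoeff G = 1 ∧
      PowerSeries.X ^ (n + 1) ∣ G ^ k * PR k a s2 - PR k a s1 := by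
  obtain ⟨u, hu⟩ := isUnit_PR k a s2
  -- the inverse
  set v : PowerSeries R := ((u⁻¹ : (PowerSeries R)ˣ) : PowerSeries R) with hv
  have huv : PR k a s2 * v = 1 := by rw [← hu, hv, Units.mul_inv]
  obtain ⟨U1, hU1⟩ := PR_sub_one k a s1
  obtain ⟨U2, hU2⟩ := PR_sub_one k a s2
  have h1 : PR k a s1 * v = 1 + (k : PowerSeries R) ^ 2 * (PowerSeries.X * (U1 * v - U2 * v)) := by
    linear_combination v * hU1 - v * hU2 + huv
  obtain ⟨W, hW, E, hE⟩ := exists_root k (PowerSeries.X * (U1 * v - U2 * v)) (dvd_mul_right _ _) n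
  refine ⟨1 + (k : PowerSeries R) * W, ?_, ⟨E * PR k a s2, ?_⟩⟩
  · obtain ⟨w, hw⟩ := hW
    rw [hw]; simp
  · rw [← h1] at hE
    linear_combination (PR k a s2) * hE + (PR k a s1) * huv

/-- The power sums series, `-(sum c^{j+1})`. -/
noncomputable def PS {ι : Type*} (k : ℕ) (a : ι → R) (s : Finset ι) : PowerSeries R :=
  PowerSeries.mk fun j => -∑ i ∈ s, ((k : R) ^ 2 * a i) ^ (j + 1)

lemma geo_series (c : R) : (1 - PowerSeries.C c * PowerSeries.X)
    * PowerSeries.mk (fun j => c ^ (j + 1)) = PowerSeries.C c := by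
  ext n
  rw [sub_mul, one_mul, map_sub, PowerSeries.coeff_mk, mul_assoc, PowerSeries.coeff_C_mul]
  cases n with
  | zero => simp
  | succ n =>
    rw [PowerSeries.coeff_succ_X_mul, PowerSeries.coeff_mk, PowerSeries.coeff_C, if_neg (by omega)]
    ring

lemma deriv_PR {ι : Type*} (k : ℕ) (a : ι → R) (s : Finset ι) :
    PowerSeries.derivative R (PR k a s) = PS k a s * PR k a s := by
  classical
  induction s using Finset.induction_on with
  | empty =>
    have : PS k a (∅ : Finset ι) = 0 := by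
      ext n
      simp [PS]
    rw [this, PR, Finset.prod_empty, zero_mul]
    simp
  | insert x s hx ih =>
    have h1 : PR k a (insert x s)
        = (1 - PowerSeries.C ((k : R) ^ 2 * a x) * PowerSeries.X) * PR k a s := by
      rw [PR, Finset.prod_insert hx, PR]
    have h2 : PS k a (insert x s)
        = -PowerSeries.mk (fun j => ((k : R) ^ 2 * a x) ^ (j + 1)) + PS k a s := by
      ext n
      rw [map_add, map_neg]
      simp only [PS, PowerSeries.coeff_mk, Finset.sum_insert hx]
      ring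
    have h3 : PowerSeries.derivative R
        (1 - PowerSeries.C ((k : R) ^ 2 * a x) * PowerSeries.X)
          = -PowerSeries.C ((k : R) ^ 2 * a x) := by
      ext n
      rw [PowerSeries.coeff_derivative, map_sub, PowerSeries.coeff_succ_mul_X, map_neg,
        PowerSeries.coeff_C, PowerSeries.coeff_one, if_neg (by omega)]
      cases n with
      | zero => simp
      | succ n => simp
    rw [h1, Derivation.leibniz, smul_eq_mul, smul_eq_mul, ih, h2, h3]
    linear_combination (PR k a s) * geo_series ((k : R) ^ 2 * a x)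

end Pool.Agent.H25.NP
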