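import Pool.Agent.H25.NP.Mat2
import Pool.Agent.H25.NP.Ser

/-!
# Size of the coefficients and of the determinants
-/

set_option autoImplicit false

namespace Pool.Agent.H25.NP

open Matrix

variable {R : Type*} [CommRing R]

lemma sum_choose (a j : ℕ) : ∑ i ∈ Finset.range (j + 1), (a + i).choose i
    = (a + 1 + j).choose j := by
  induction j with
  | zero => simp
  | succ j ih =>
    rw [Finset.sum_range_succ, ih]
    have h1 : a + 1 + (j + 1) = (a + 1 + j) + 1 := by ring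
    rw [h1, Nat.choose_succ_succ, Nat.succ_eq_add_one]
    congr 2
    ring

/-- Size of the coefficients. -/
lemma phi_le {ι : Type*} {k n b : ℕ} (hk : 1 ≤ k) {a : ι → R} {s1 s2 : Finset ι}
    {G : PowerSeries R} (h0 : PowerSeries.constantCoeff G = 1)
    (hG : PowerSeries.X ^ (n + 1) ∣ G ^ k * PR k a s2 - PR k a s1)
    (f : R →+* ℂ) (hf : ∀ j, ‖f (pw a s1 s2 (j + 1))‖ ≤ (k : ℝ) * (b + 1)) :
    ∀ j ≤ n, ‖f (PowerSeries.coeff j G)‖ ≤ ((k : ℝ) ^ 2) ^ j * ((b + j).choose j : ℕ) := by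
  intro j
  induction j using Nat.strong_induction_on with
  | _ j ih =>
    intro hj
    rcases Nat.eq_zero_or_pos j with rfl | hj0
    · rw [PowerSeries.coeff_zero_eq_constantCoeff_apply, h0]; simp
    · obtain ⟨j, rfl⟩ : ∃ i, j = i + 1 := ⟨j - 1, by omega⟩
      have hk0 : (0 : ℝ) < k := by exact_mod_cast hk
      have hj1 : (0 : ℝ) < (j : ℝ) + 1 := by positivity
      have h1 := congrArg f (recur hk h0 hG (by omega : j < n))
      rw [map_mul, map_mul, map_natCast, map_natCast, map_sum] at h1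
      have h2 : (k : ℝ) * ((j : ℝ) + 1) * ‖f (PowerSeries.coeff (j + 1) G)‖
          ≤ ∑ i ∈ Finset.range (j + 1), (k : ℝ) * (b + 1) * ((k : ℝ) ^ 2) ^ (j + 1)
            * ((b + (j - i)).choose (j - i) : ℕ) := by
        have h3 := congrArg norm h1
        rw [norm_mul, norm_mul, Complex.norm_natCast, Complex.norm_natCast] at h3
        have h4 : (((j + 1 : ℕ)) : ℝ) = (j : ℝ) + 1 := by push_cast; rfl
        rw [h4] at h3
        rw [h3]
        refine (norm_sum_le _ _).trans (Finset.sum_le_sum fun i hi => ?_)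
        rw [Finset.mem_range] at hi
        rw [map_mul, map_mul, map_pow, map_natCast, norm_mul, norm_mul, norm_pow,
          Complex.norm_natCast]
        have h5 := ih (j - i) (by omega) (by omega)
        have h6 : ((k : ℝ) ^ 2) ^ (j + 1) = (k : ℝ) ^ (2 * (i + 1)) * ((k : ℝ) ^ 2) ^ (j - i) := by
          rw [← pow_mul, ← pow_mul, ← pow_add]; congr 1; omega
        calc (k : ℝ) ^ (2 * (i + 1)) * ‖f (pw a s1 s2 (i + 1))‖ * ‖f (PowerSeries.coeff (j - i) G)‖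
            ≤ (k : ℝ) ^ (2 * (i + 1)) * ((k : ℝ) * (b + 1))
              * (((k : ℝ) ^ 2) ^ (j - i) * ((b + (j - i)).choose (j - i) : ℕ)) := by
              have := hf i
              gcongr
          _ = _ := by rw [h6]; ring
      rw [← Finset.mul_sum] at h2
      have h3 : ∑ i ∈ Finset.range (j + 1), (((b + (j - i)).choose (j - i) : ℕ) : ℝ)
          = (((b + 1 + j).choose j : ℕ) : ℝ) := by
        rw [← sum_choose, ← Finset.sum_range_reflect, Nat.cast_sum]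
        refine Finset.sum_congr rfl fun i hi => ?_
        rw [Finset.mem_range] at hi
        have e1 : j + 1 - 1 - i = j - i := by omega
        have e2 : j - (j - i) = i := by omega
        rw [e1, e2]
      rw [h3] at h2
      have h4 : (((b + (j + 1)).choose (j + 1) : ℕ) : ℝ) * ((j : ℝ) + 1)
          = (((b + 1 + j).choose j : ℕ) : ℝ) * ((b : ℝ) + 1) := by
        have h5 := Nat.choose_succ_right_eq (b + 1 + j) j
        have e1 : b + 1 + j - j = b + 1 := by omega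
        have e2 : b + (j + 1) = b + 1 + j := by ring
        rw [e1] at h5
        rw [e2]
        exact_mod_cast h5
      have h5 : (k : ℝ) * ((j : ℝ) + 1) * ‖f (PowerSeries.coeff (j + 1) G)‖
          ≤ (k : ℝ) * ((j : ℝ) + 1) * (((k : ℝ) ^ 2) ^ (j + 1)
            * (((b + (j + 1)).choose (j + 1) : ℕ) : ℝ)) := by
        refine h2.trans (le_of_eq ?_)
        linear_combination (-(k : ℝ) * ((k : ℝ) ^ 2) ^ (j + 1)) * h4
      exact le_of_mul_le_mul_left h5 (by positivity)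

lemma choose_mono' (b : ℕ) {i j : ℕ} (h : i ≤ j) : (b + i).choose i ≤ (b + j).choose j := by
  rw [Nat.choose_symm_add (a := b) (b := i) |>.symm, Nat.choose_symm_add (a := b) (b := j) |>.symm]
  exact Nat.choose_le_choose b (by omega)

/-- Size of the determinants. -/
theorem EM_bound {k m b s : ℕ} (hk : 1 ≤ k) (hs : s ≤ 1) {φ : ℕ → R} {q : ℕ} (hq : 1 ≤ q)
    {x y : R} (f : R →+* ℂ) {P : ℝ} (hx : ‖f x‖ ≤ P) (hy : ‖f y‖ ≤ P)
    (hφ : ∀ j ≤ 2 * m + 1, ‖f (φ j)‖ ≤ ((k : ℝ) ^ 2) ^ j * ((b + j).choose j : ℕ)) :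
    ‖f (EM φ ((k : R) ^ 2) (q : R) x y m s).det‖ ≤ ((m + 1).factorial : ℝ)
      * (P * (q : ℝ) ^ (m + 1)
          * (((m : ℝ) + 2) * ((b + (2 * m + 1)).choose (2 * m + 1) : ℕ) + 1)
          * (((b + (2 * m + 1)).choose (2 * m + 1) : ℕ) : ℝ) ^ m)
      * ((k : ℝ) ^ 2) ^ ((m + 1) ^ 2) := by
  set β : ℝ := (((b + (2 * m + 1)).choose (2 * m + 1) : ℕ) : ℝ) with hβ
  set κ : ℝ := (k : ℝ) ^ 2 with hκ
  have hk1 : (1 : ℝ) ≤ k := by exact_mod_cast hk
  have hκ1 : (1 : ℝ) ≤ κ := one_le_pow₀ hk1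
  have hκ0 : (0 : ℝ) < κ := by linarith
  have hq1 : (1 : ℝ) ≤ q := by exact_mod_cast hq
  have hP : 0 ≤ P := (norm_nonneg _).trans hx
  have hβ0 : 0 ≤ β := Nat.cast_nonneg _
  have hφβ : ∀ j ≤ 2 * m + 1, ‖f (φ j)‖ ≤ κ ^ j * β := by
    intro j hj
    refine (hφ j hj).trans ?_
    refine mul_le_mul_of_nonneg_left ?_ (by positivity)
    rw [hβ]
    exact_mod_cast choose_mono' b hj
  rw [RingHom.map_det]
  -- weights
  set X : Fin (m + 1) → ℝ := fun a => Fin.cases (κ ^ (m + 1) * (P * (q : ℝ) ^ (m + 1)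
      * (((m : ℝ) + 2) * β + 1))) (fun a' : Fin m => κ ^ (m + 1 + ((a' : ℕ) + 1)) * β) a with hX
  set Y : Fin (m + 1) → ℝ := fun c => (κ ^ ((c : ℕ) + s))⁻¹ with hY
  have hent : ∀ a c, ‖(f.mapMatrix (EM φ ((k : R) ^ 2) (q : R) x y m s)) a c‖ ≤ X a * Y c := by
    intro a c
    have hc := c.2
    rw [RingHom.mapMatrix_apply, Matrix.map_apply]
    refine Fin.cases ?_ (fun a' => ?_) a
    · rw [EM_zero, ee]
      have hX0 : X 0 = κ ^ (m + 1) * (P * (q : ℝ) ^ (m + 1) * (((m : ℝ) + 2) * β + 1)) := rfl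
      rw [hX0, hY]
      set i := (c : ℕ) + s with hi
      have hi' : i ≤ m + 1 := by omega
      have h1 : κ ^ (m + 1) * (P * (q : ℝ) ^ (m + 1) * (((m : ℝ) + 2) * β + 1)) * (κ ^ i)⁻¹
          = κ ^ (m + 1 - i) * (P * (q : ℝ) ^ (m + 1) * (((m : ℝ) + 2) * β + 1)) := by
        have : κ ^ (m + 1) = κ ^ (m + 1 - i) * κ ^ i := by rw [← pow_add]; congr 1; omega
        rw [this]
        field_simp
      rw [h1, map_sub, map_mul, map_mul, map_mul, map_sum]
      refine (norm_sub_le _ _).trans ?_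
      rw [norm_mul, norm_mul, norm_mul]
      have h2 : ‖∑ j ∈ Finset.Ico i (m + 1 + 1), f (φ (j - i) * (q : R) ^ j
          * ((k : R) ^ 2) ^ (m + 1 - j))‖ ≤ κ ^ (m + 1 - i) * ((q : ℝ) ^ (m + 1)
            * (((m : ℝ) + 2) * β)) := by
        refine (norm_sum_le _ _).trans ?_
        have h3 : ∀ j ∈ Finset.Ico i (m + 1 + 1), ‖f (φ (j - i) * (q : R) ^ j
            * ((k : R) ^ 2) ^ (m + 1 - j))‖ ≤ κ ^ (m + 1 - i) * ((q : ℝ) ^ (m + 1) * β) := by
          intro j hj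
          rw [Finset.mem_Ico] at hj
          rw [map_mul, map_mul, map_pow, map_pow, map_pow, map_natCast, map_natCast, norm_mul,
            norm_mul, norm_pow, norm_pow, norm_pow, Complex.norm_natCast, Complex.norm_natCast]
          have h4 := hφβ (j - i) (by omega)
          have h5 : (q : ℝ) ^ j ≤ (q : ℝ) ^ (m + 1) := pow_le_pow_right₀ hq1 (by omega)
          have h6 : κ ^ (m + 1 - i) = κ ^ (j - i) * κ ^ (m + 1 - j) := by
            rw [← pow_add]; congr 1; omega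
          rw [h6]
          calc ‖f (φ (j - i))‖ * (q : ℝ) ^ j * κ ^ (m + 1 - j)
              ≤ (κ ^ (j - i) * β) * (q : ℝ) ^ (m + 1) * κ ^ (m + 1 - j) := by gcongr
            _ = _ := by ring
        refine (Finset.sum_le_sum h3).trans ?_
        rw [Finset.sum_const, Nat.card_Ico, nsmul_eq_mul]
        have h4 : ((m + 1 + 1 - i : ℕ) : ℝ) ≤ (m : ℝ) + 2 := by
          have : m + 1 + 1 - i ≤ m + 2 := by omega
          have h5 : ((m + 1 + 1 - i : ℕ) : ℝ) ≤ ((m + 2 : ℕ) : ℝ) := by exact_mod_cast this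
          push_cast at h5 ⊢
          exact h5
        calc ((m + 1 + 1 - i : ℕ) : ℝ) * (κ ^ (m + 1 - i) * ((q : ℝ) ^ (m + 1) * β))
            ≤ ((m : ℝ) + 2) * (κ ^ (m + 1 - i) * ((q : ℝ) ^ (m + 1) * β)) := by gcongr
          _ = _ := by ring
      have h3 : ‖f ((q : R) ^ i)‖ * ‖f (((k : R) ^ 2) ^ (m + 1 - i))‖
          ≤ (q : ℝ) ^ (m + 1) * κ ^ (m + 1 - i) := by
        rw [map_pow, map_pow, map_pow, map_natCast, map_natCast, norm_pow, norm_pow, norm_pow,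
          Complex.norm_natCast, Complex.norm_natCast]
        have h5 : (q : ℝ) ^ i ≤ (q : ℝ) ^ (m + 1) := pow_le_pow_right₀ hq1 hi'
        gcongr
      calc ‖∑ j ∈ Finset.Ico i (m + 1 + 1), f (φ (j - i) * (q : R) ^ j
            * ((k : R) ^ 2) ^ (m + 1 - j))‖ * ‖f y‖
            + ‖f ((q : R) ^ i)‖ * ‖f (((k : R) ^ 2) ^ (m + 1 - i))‖ * ‖f x‖
          ≤ κ ^ (m + 1 - i) * ((q : ℝ) ^ (m + 1) * (((m : ℝ) + 2) * β)) * P
            + (q : ℝ) ^ (m + 1) * κ ^ (m + 1 - i) * P := by gcongr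
        _ = _ := by ring
    · rw [EM_succ]
      have ha' := a'.2
      have hXs : X a'.succ = κ ^ (m + 1 + ((a' : ℕ) + 1)) * β := rfl
      rw [hXs, hY]
      have h4 := hφβ (m + 1 + ((a' : ℕ) + 1) - ((c : ℕ) + s)) (by omega)
      refine h4.trans (le_of_eq ?_)
      have h6 : κ ^ (m + 1 + ((a' : ℕ) + 1)) = κ ^ (m + 1 + ((a' : ℕ) + 1) - ((c : ℕ) + s))
          * κ ^ ((c : ℕ) + s) := by
        rw [← pow_add]; congr 1; omega
      rw [h6]
      field_simp
  have h1 := det_norm_le _ X Y hent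
  refine h1.trans ?_
  -- the product of the weights
  have h2 : ∏ a, X a = κ ^ (m + 1) * (P * (q : ℝ) ^ (m + 1) * (((m : ℝ) + 2) * β + 1))
      * (κ ^ (∑ a : Fin m, (m + 1 + ((a : ℕ) + 1))) * β ^ m) := by
    rw [Fin.prod_univ_succ]
    congr 1
    have : ∀ a : Fin m, X a.succ = κ ^ (m + 1 + ((a : ℕ) + 1)) * β := fun a => rfl
    rw [Finset.prod_congr rfl fun a _ => this a, Finset.prod_mul_distrib,
      Finset.prod_pow_eq_pow_sum, Finset.prod_const, Finset.card_univ, Fintype.card_fin]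
  have h3 : ∏ c, Y c = (κ ^ (∑ c : Fin (m + 1), ((c : ℕ) + s)))⁻¹ := by
    rw [hY, Finset.prod_inv_distrib, Finset.prod_pow_eq_pow_sum]
  have h4 : (m + 1) + ∑ a : Fin m, (m + 1 + ((a : ℕ) + 1))
      ≤ (m + 1) ^ 2 + ∑ c : Fin (m + 1), ((c : ℕ) + s) := by
    have h5 : (m + 1) + ∑ a : Fin m, (m + 1 + ((a : ℕ) + 1))
        = (m + 1) ^ 2 + ∑ c : Fin (m + 1), (c : ℕ) := by
      rw [Fin.sum_univ_eq_sum_range (fun a => m + 1 + (a + 1)),
        Fin.sum_univ_eq_sum_range (fun c => c), Finset.sum_range_succ', Finset.sum_add_distrib,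
        Finset.sum_const, Finset.card_range, smul_eq_mul]
      ring
    rw [h5]
    gcongr with c _
    omega
  have h5 : κ ^ (m + 1) * κ ^ (∑ a : Fin m, (m + 1 + ((a : ℕ) + 1)))
      * (κ ^ (∑ c : Fin (m + 1), ((c : ℕ) + s)))⁻¹ ≤ κ ^ ((m + 1) ^ 2) := by
    rw [← pow_add, mul_inv_le_iff₀ (by positivity), ← pow_add]
    exact pow_le_pow_right₀ hκ1 h4
  rw [h2, h3]
  have h6 : (0 : ℝ) ≤ P * (q : ℝ) ^ (m + 1) * (((m : ℝ) + 2) * β + 1) * β ^ m := by positivity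
  calc ((m + 1).factorial : ℝ) * (κ ^ (m + 1) * (P * (q : ℝ) ^ (m + 1) * (((m : ℝ) + 2) * β + 1))
        * (κ ^ (∑ a : Fin m, (m + 1 + ((a : ℕ) + 1))) * β ^ m)
        * (κ ^ (∑ c : Fin (m + 1), ((c : ℕ) + s)))⁻¹)
      = ((m + 1).factorial : ℝ) * (P * (q : ℝ) ^ (m + 1) * (((m : ℝ) + 2) * β + 1) * β ^ m)
        * (κ ^ (m + 1) * κ ^ (∑ a : Fin m, (m + 1 + ((a : ℕ) + 1)))
          * (κ ^ (∑ c : Fin (m + 1), ((c : ℕ) + s)))⁻¹) := by ring
    _ ≤ ((m + 1).factorial : ℝ) * (P * (q : ℝ) ^ (m + 1) * (((m : ℝ) + 2) * β + 1) * β ^ m)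
        * κ ^ ((m + 1) ^ 2) := by
        exact mul_le_mul_of_nonneg_left h5 (by positivity)

end Pool.Agent.H25.NP
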